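import Mathlib

-- part Pool.Agent.Lib.MP_9e3d42_al.NSCore
section

/-! A divisibility argument for commuting pairs of matrices with a small centraliser. -/

open Matrix Polynomial

namespace Pool.Agent.Lib.MP_9e3d42_al.NS

variable {σ I : Type} [Fintype σ] [DecidableEq σ] [Fintype I] [DecidableEq I]

/-- The matrix of the commutator with `T`. -/
def adM {S : Type*} [CommRing S] (T : Matrix σ σ S) : Matrix (σ × σ) (σ × σ) S :=
  Matrix.of fun p q => (if p.2 = q.2 then T p.1 q.1 else 0) - (if p.1 = q.1 then T q.2 p.2 else 0)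

/-- A family of monomials in two matrices, as columns. -/
def mon {S : Type*} [CommRing S] (a b : I → ℕ) (Y T : Matrix σ σ S) : Matrix (σ × σ) I S :=
  Matrix.of fun p i => (Y ^ a i * T ^ b i) p.1 p.2

section ring
variable {S S' : Type*} [CommRing S] [CommRing S']

theorem adM_mulVec (T φ : Matrix σ σ S) :
    (adM T *ᵥ fun q => φ q.1 q.2) = fun p => (T * φ - φ * T) p.1 p.2 := by
  funext p
  simp only [adM, Matrix.mulVec, dotProduct, Fintype.sum_prod_type, sub_mul,
    Finset.sum_sub_distrib, Matrix.mul_apply, Matrix.of_apply, Matrix.sub_apply, ite_mul, zero_mul,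
    Finset.sum_ite_eq, Finset.mem_univ, if_true]
  congr 1
  rw [Finset.sum_comm]
  simp [mul_comm]

omit [Fintype I] [DecidableEq I] in
theorem adM_mul_mon (a b : I → ℕ) {U Y T : Matrix σ σ S} (h1 : Commute U Y) (h2 : Commute U T) :
    adM U * mon a b Y T = 0 := by
  ext p i
  have := congrFun (adM_mulVec U (Y ^ a i * T ^ b i)) p
  rw [((h1.pow_right _).mul_right (h2.pow_right _)).eq, sub_self] at this
  exact this

omit [Fintype σ] in
theorem adM_map (f : S →+* S') (T : Matrix σ σ S) : (adM T).map f = adM (T.map f) := by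
  ext p q
  simp only [adM, Matrix.map_apply, Matrix.of_apply, map_sub]
  split_ifs <;> simp

omit [Fintype I] [DecidableEq I] in
theorem mon_map (f : S →+* S') (a b : I → ℕ) (Y T : Matrix σ σ S) :
    (mon a b Y T).map f = mon a b (Y.map f) (T.map f) := by
  ext p i
  have := congrFun (congrFun (map_mul f.mapMatrix (Y ^ a i) (T ^ b i)) p.1) p.2
  rw [map_pow, map_pow] at this
  exact this

theorem mon_smul (a b : I → ℕ) (Y T : Matrix σ σ S) (c : S) :
    mon a b Y (c • T) = mon a b Y T * Matrix.diagonal fun i => c ^ b i := by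
  ext p i
  simp [mon, _root_.smul_pow, mul_comm]

end ring

variable {K : Type*} [Field K] [IsAlgClosed K]

theorem const_of_no_root {p : K[X]} (h : ∀ t, p.eval t ≠ 0) : p = C (p.coeff 0) := by
  refine Polynomial.eq_C_of_degree_eq_zero ?_
  by_contra hd
  obtain ⟨t, ht⟩ := IsAlgClosed.exists_root p hd
  exact h t ht

theorem exists_zero (p : K[X][X]) (h : p.evalEval 0 0 = 0) :
    ∃ s t, (s ≠ 0 ∨ t ≠ 0) ∧ p.evalEval s t = 0 := by
  by_contra hc
  push Not at hc
  have h1 : p = C (p.coeff 0) := by
    ext1 j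
    rcases j with _ | j
    · simp
    · rw [coeff_C_succ]
      refine Polynomial.eq_zero_of_infinite_isRoot _ (Set.Infinite.mono ?_
        (Set.finite_singleton (0 : K)).infinite_compl)
      intro s hs
      have h2 := const_of_no_root (p := p.map (evalRingHom s)) fun t => by
        rw [map_evalRingHom_eval]; exact hc s t (Or.inl hs)
      have h3 := congrArg (fun q => q.coeff (j + 1)) h2
      simpa using h3
  refine hc 0 1 (Or.inr one_ne_zero) ?_
  generalize p.coeff 0 = r at h1
  subst h1
  rw [evalEval_C] at h ⊢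
  exact h

theorem core (a b : I → ℕ) (Y Z W H : Matrix σ σ K) (hZ : Commute Y Z) (hW : Commute Y W)
    (hH : Commute Y H) (ρ1 ρ2 : Matrix (σ × σ) (σ × σ) K) (ι : Matrix (σ × σ) I K)
    (π : Matrix I (σ × σ) K) (hid : ρ1 * adM Y + ρ2 * adM Z + ι * π = 1)
    (hind : ∀ s t : K, (s ≠ 0 ∨ t ≠ 0) →
      ∃ η : Matrix I (σ × σ) K, η * mon a b Y (s • W + t • H) = 1) :
    (π * mon a b Y Z).det ≠ 0 := by
  intro h0
  let c : K →+* MvPolynomial (Fin 3) K := MvPolynomial.C
  let T : Matrix σ σ (MvPolynomial (Fin 3) K) := (MvPolynomial.X 0 : MvPolynomial (Fin 3) K) • Z.map c +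
    (MvPolynomial.X 1 : MvPolynomial (Fin 3) K) • W.map c +
    (MvPolynomial.X 2 : MvPolynomial (Fin 3) K) • H.map c
  let TP : (Fin 3 → K) → Matrix σ σ K := fun P => P 0 • Z + P 1 • W + P 2 • H
  have hc : ∀ {m n : Type} (P : Fin 3 → K) (A : Matrix m n K),
      (A.map c).map (MvPolynomial.eval P) = A := fun P A => by
    ext i j; simp [c]
  have hT : ∀ P, T.map (MvPolynomial.eval P) = TP P := fun P => by
    ext i j; simp [T, TP, c]
  let D : Matrix I (σ × σ) K → MvPolynomial (Fin 3) K :=
    fun η => (η.map c * mon a b (Y.map c) T).det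
  have hD : ∀ η P, MvPolynomial.eval P (D η) = (η * mon a b Y (TP P)).det := fun η P => by
    simp only [D]
    rw [RingHom.map_det, RingHom.mapMatrix_apply, Matrix.map_mul, mon_map, hc, hc, hT]
  let M : Matrix (σ × σ) (σ × σ) (MvPolynomial (Fin 3) K) :=
    ρ1.map c * adM (Y.map c) + ρ2.map c * adM T + ι.map c * π.map c
  have hP0 : TP ![1, 0, 0] = Z := by simp [TP]
  have hM : MvPolynomial.eval ![1, 0, 0] M.det = 1 := by
    rw [RingHom.map_det, RingHom.mapMatrix_apply]
    simp only [M, Matrix.map_add _ (map_add _), Matrix.map_mul, adM_map, hc, hT, hP0, hid, det_one]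
  have hYT : Commute (Y.map c) T := by
    have h : ∀ {U : Matrix σ σ K}, Commute Y U → Commute (Y.map c) (U.map c) :=
      fun h => h.map c.mapMatrix
    exact (((h hZ).smul_right _).add_right ((h hW).smul_right _)).add_right ((h hH).smul_right _)
  have hMV : M * mon a b (Y.map c) T = ι.map c * (π.map c * mon a b (Y.map c) T) := by
    simp only [M, Matrix.add_mul, Matrix.mul_assoc, adM_mul_mon a b (Commute.refl _) hYT,
      adM_mul_mon a b hYT.symm (Commute.refl _), Matrix.mul_zero, zero_add]
  have key : ∀ η, D π ∣ M.det ^ Fintype.card I * D η := fun η => by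
    refine ⟨(η.map c * M.adjugate * ι.map c).det, ?_⟩
    simp only [D]
    rw [← Matrix.det_smul, mul_comm, ← Matrix.det_mul, Matrix.mul_assoc, ← hMV, Matrix.mul_assoc,
      ← Matrix.mul_assoc M.adjugate, Matrix.adjugate_mul, Matrix.smul_mul, Matrix.one_mul,
      Matrix.mul_smul]
  have hind' : ∀ s t : K, (s ≠ 0 ∨ t ≠ 0) → ∃ η, MvPolynomial.eval ![0, s, t] (D η) = 1 :=
    fun s t h => by
      obtain ⟨η, hη⟩ := hind s t h
      refine ⟨η, ?_⟩
      have : TP ![0, s, t] = s • W + t • H := by simp [TP]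
      rw [hD, this, hη, det_one]
  have hδ : D π ≠ 0 := by
    intro h
    obtain ⟨η, hη⟩ := hind' 1 0 (Or.inl one_ne_zero)
    have h1 := key η
    rw [h, zero_dvd_iff, mul_eq_zero] at h1
    rcases h1 with h1 | h1
    · rw [eq_zero_of_pow_eq_zero h1, map_zero] at hM
      exact zero_ne_one hM
    · rw [h1, map_zero] at hη
      exact zero_ne_one hη
  obtain ⟨q, hq, hqd, hq0⟩ : ∃ q, Prime q ∧ q ∣ D π ∧ MvPolynomial.eval ![1, 0, 0] q = 0 := by
    obtain ⟨f, hf, u, hu⟩ := UniqueFactorizationMonoid.exists_prime_factors _ hδ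
    have h1 : MvPolynomial.eval ![1, 0, 0] (D π) = 0 := by rw [hD, hP0, h0]
    rw [← hu, map_mul, mul_eq_zero, map_multiset_prod, Multiset.prod_eq_zero_iff,
      Multiset.mem_map] at h1
    rcases h1 with ⟨q, h1, h2⟩ | h1
    · exact ⟨q, hf q h1, hu ▸ (Multiset.dvd_prod h1).mul_right _, h2⟩
    · exact absurd h1 (u.isUnit.map _).ne_zero
  have hqη : ∀ η, q ∣ D η := fun η => by
    refine (hq.dvd_or_dvd (hqd.trans (key η))).resolve_left fun h => ?_
    obtain ⟨r, hr⟩ := hq.dvd_of_dvd_pow h
    rw [hr, map_mul, hq0, zero_mul] at hM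
    exact zero_ne_one hM
  have hq00 : MvPolynomial.eval 0 q = 0 := by
    by_contra hne
    have h1 : ∀ P, MvPolynomial.eval P (D π) ≠ 0 →
        MvPolynomial.eval P q = MvPolynomial.eval 0 q := by
      intro P hP
      set g : K[X] := MvPolynomial.aeval (fun i => C (P i) * X) q with hg
      have h2 : ∀ l, g.eval l = MvPolynomial.eval (l • P) q := fun l => by
        have : (evalRingHom l).comp (MvPolynomial.aeval (fun i => C (P i) * X) :
            MvPolynomial (Fin 3) K →ₐ[K] K[X]).toRingHom = MvPolynomial.eval (l • P) := by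
          refine MvPolynomial.ringHom_ext (fun r => ?_) fun i => ?_
          · simp
          · simp only [RingHom.coe_comp, Function.comp_apply, AlgHom.toRingHom_eq_coe,
              RingHom.coe_coe, MvPolynomial.aeval_X, coe_evalRingHom, eval_mul, eval_C, eval_X,
              MvPolynomial.eval_X, Pi.smul_apply, smul_eq_mul]
            exact mul_comm _ _
        exact RingHom.congr_fun this q
      have h3 := const_of_no_root (p := g) fun l => by
        rw [h2]
        rcases eq_or_ne l 0 with rfl | hl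
        · rwa [zero_smul]
        · intro h4
          obtain ⟨r, hr⟩ := hqd
          have h5 : MvPolynomial.eval (l • P) (D π) = 0 := by rw [hr, map_mul, h4, zero_mul]
          have h6 : TP (l • P) = l • TP P := by simp [TP, smul_smul]
          rw [hD, h6, mon_smul, ← Matrix.mul_assoc, det_mul, det_diagonal, mul_eq_zero] at h5
          rcases h5 with h5 | h5
          · exact hP (by rw [hD, h5])
          · exact Finset.prod_ne_zero_iff.2 (fun i _ => pow_ne_zero _ hl) h5
      have h4 := h2 1
      have h5 := h2 0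
      rw [h3, eval_C] at h4 h5
      rw [one_smul] at h4
      rw [zero_smul] at h5
      rw [← h4, ← h5]
    have h2 : (q - MvPolynomial.C (MvPolynomial.eval 0 q)) * D π = 0 :=
      MvPolynomial.funext fun P => by
        rw [map_mul, map_zero, mul_eq_zero, map_sub, MvPolynomial.eval_C, sub_eq_zero]
        exact (em' _).imp (h1 P) id
    rw [mul_eq_zero, or_iff_left hδ, sub_eq_zero] at h2
    rw [h2, MvPolynomial.eval_C] at hq0
    exact hne hq0
  set p : K[X][X] := MvPolynomial.aeval (![0, C X, X] : Fin 3 → K[X][X]) q with hp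
  have h1 : ∀ s t, p.evalEval s t = MvPolynomial.eval ![0, s, t] q := fun s t => by
    have : (evalEvalRingHom s t).comp (MvPolynomial.aeval (![0, C X, X] : Fin 3 → K[X][X]) :
        MvPolynomial (Fin 3) K →ₐ[K] K[X][X]).toRingHom = MvPolynomial.eval ![0, s, t] := by
      refine MvPolynomial.ringHom_ext (fun r => ?_) fun i => ?_
      · simp [Polynomial.algebraMap_apply]
      · fin_cases i <;> simp
    exact RingHom.congr_fun this q
  obtain ⟨s, t, hst, h2⟩ := exists_zero p (by
    have : (![0, 0, 0] : Fin 3 → K) = 0 := by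
      funext i
      fin_cases i <;> rfl
    rw [h1, this, hq00])
  obtain ⟨η, hη⟩ := hind' s t hst
  obtain ⟨r, hr⟩ := hqη η
  rw [hr, map_mul, ← h1, h2, zero_mul] at hη
  exact zero_ne_one hη

end Pool.Agent.Lib.MP_9e3d42_al.NS
end

-- part Pool.Agent.Lib.MP_9e3d42_al.NSJordan
section

/-! Jordan bases of nilpotent operators and two commuting operators attached to them. -/

open Polynomial Module

namespace Pool.Agent.Lib.MP_9e3d42_al.NS

variable {K V : Type*} [Field K] [AddCommGroup V] [Module K V]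

theorem exists_jordan [FiniteDimensional K V] (f : Module.End K V) (hf : IsNilpotent f) :
    ∃ (d : ℕ) (lam : Fin d → ℕ) (e : Fin d → V) (β : Basis (Σ j : Fin d, Fin (lam j)) K V),
      Antitone lam ∧ (∀ x, β x = (f ^ (x.2 : ℕ)) (e x.1)) ∧ ∀ j, (f ^ lam j) (e j) = 0 := by
  classical
  obtain ⟨m, hm⟩ := hf
  obtain ⟨d, κ, ⟨φ⟩⟩ := Module.torsion_by_prime_power_decomposition (R := K[X])
    (M := AEval' f) Polynomial.irreducible_X
    ((Submodule.isTorsion'_powers_iff _).2 fun x => ⟨m, by
      apply (AEval'.of f).symm.injective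
      rw [AEval.of_symm_smul, aeval_X_pow, hm]
      simp⟩)
  let s := Tuple.sort (α := ℕᵒᵈ) (OrderDual.toDual ∘ κ)
  let ψ := (φ.symm.restrictScalars K).trans (AEval'.of f).symm
  have hψ : ∀ (p : K[X]) v, ψ (p • v) = aeval f p (ψ v) := fun p v => by
    simp only [ψ, LinearEquiv.trans_apply, LinearEquiv.restrictScalars_apply, map_smul]
    rfl
  let u := fun j => DirectSum.lof K[X] _ (fun i => K[X] ⧸ K[X] ∙ (X : K[X]) ^ κ i) j
    (Submodule.Quotient.mk 1)
  have h0 : ∀ j, (f ^ κ j) (ψ (u j)) = 0 := fun j => by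
    rw [← aeval_X_pow (R := K), ← hψ, ← map_smul, ← Submodule.Quotient.mk_smul,
      (Submodule.Quotient.mk_eq_zero _).2 (by simp), map_zero, map_zero]
  let v : (Σ j : Fin d, Fin (κ (s j))) → V := fun x => (f ^ (x.2 : ℕ)) (ψ (u (s x.1)))
  have h1 : ∀ j (i : ℕ), (f ^ i) (ψ (u j)) ∈ Submodule.span K (Set.range v) := fun j i => by
    obtain ⟨j, rfl⟩ := s.surjective j
    rcases lt_or_ge i (κ (s j)) with h | h
    · exact Submodule.subset_span ⟨⟨j, i, h⟩, rfl⟩
    · obtain ⟨c, rfl⟩ := Nat.exists_eq_add_of_le' h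
      rw [pow_add, Module.End.mul_apply, h0, map_zero]
      exact zero_mem _
  have h2 : ⊤ ≤ Submodule.span K (Set.range v) := by
    rintro w -
    obtain ⟨w, rfl⟩ := ψ.surjective w
    induction w using DirectSum.induction_on with
    | zero => simp
    | add x y hx hy => rw [map_add]; exact add_mem hx hy
    | of j x =>
      obtain ⟨p, rfl⟩ := Submodule.Quotient.mk_surjective _ x
      have : DirectSum.of (fun i => K[X] ⧸ K[X] ∙ (X : K[X]) ^ κ i) j
          (Submodule.Quotient.mk p) = p • u j := by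
        rw [← map_smul, ← Submodule.Quotient.mk_smul, smul_eq_mul, mul_one]
        rfl
      rw [this, hψ, aeval_eq_sum_range, LinearMap.sum_apply]
      exact sum_mem fun i _ => Submodule.smul_mem _ _ (h1 j i)
  have h3 : Fintype.card (Σ j : Fin d, Fin (κ (s j))) = finrank K V := by
    have : ∀ i, Module.Finite K (K[X] ⧸ K[X] ∙ (X : K[X]) ^ κ i) := fun i =>
      (monic_X_pow (κ i)).finite_quotient
    rw [← ψ.finrank_eq, Module.finrank_directSum, Fintype.card_sigma]
    refine Eq.trans (Finset.sum_congr rfl fun j _ => ?_) (Equiv.sum_comp s _)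
    rw [Fintype.card_fin]
    exact ((finrank_quotient_span_eq_natDegree (f := (X : K[X]) ^ κ (s j))).trans (by simp)).symm
  exact ⟨d, κ ∘ s, fun j => ψ (u (s j)), basisOfTopLeSpanOfCardEqFinrank v h2 h3,
    fun i j h => Tuple.monotone_sort (α := ℕᵒᵈ) (OrderDual.toDual ∘ κ) h,
    fun x => by rw [coe_basisOfTopLeSpanOfCardEqFinrank], fun j => h0 _⟩

theorem indep_of_apply {I : Type*} {v : I → Module.End K V} (w : V)
    (h : LinearIndependent K fun i => v i w) : LinearIndependent K v :=
  LinearIndependent.of_comp (LinearMap.applyₗ w) h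

theorem exists_pencil [FiniteDimensional K V] [Infinite K] (f : Module.End K V)
    (hf : IsNilpotent f) :
    ∃ (a b : Fin (finrank K V) → ℕ) (W H : Module.End K V), Commute f W ∧ Commute f H ∧
      ∀ s t : K, (s ≠ 0 ∨ t ≠ 0) →
        LinearIndependent K fun i => f ^ a i * (s • W + t • H) ^ b i := by
  classical
  obtain ⟨d, lam, e, β, hlam, hβ, he⟩ := exists_jordan f hf
  let L : ℕ → ℕ := fun j => if h : j < d then lam ⟨j, h⟩ else 0
  let E : ℕ → V := fun j => if h : j < d then e ⟨j, h⟩ else 0
  have hL : Antitone L := fun i j hij => by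
    simp only [L]
    split_ifs with h1 h2
    · exact hlam hij
    · omega
    · exact Nat.zero_le _
    · exact le_rfl
  have hL1 : ∀ j : Fin d, L j = lam j := fun j => dif_pos j.2
  have hE1 : ∀ j : Fin d, E j = e j := fun j => dif_pos j.2
  have hE0 : ∀ j i, L j ≤ i → (f ^ i) (E j) = 0 := fun j i h => by
    obtain ⟨c, rfl⟩ := Nat.exists_eq_add_of_le' h
    rw [pow_add, Module.End.mul_apply]
    simp only [L, E]
    split_ifs with h1
    · rw [he, map_zero]
    · simp
  have hEβ : ∀ j i, i < L j → ∃ x : Σ j : Fin d, Fin (lam j), (x.1 : ℕ) = j ∧ (x.2 : ℕ) = i ∧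
      β x = (f ^ i) (E j) := fun j i h => by
    have h1 : j < d := by
      by_contra h1
      simp [L, h1] at h
    exact ⟨⟨⟨j, h1⟩, i, hL1 ⟨j, h1⟩ ▸ h⟩, rfl, rfl, by rw [hβ, ← hE1]⟩
  have hcon : ∀ G : ℕ → V, (∀ j i, L j ≤ i → (f ^ i) (G j) = 0) →
      ∃ W : Module.End K V, Commute f W ∧ ∀ j i, W ((f ^ i) (E j)) = (f ^ i) (G j) := by
    intro G hG
    have h1 : ∀ j i, β.constr K (fun x => (f ^ (x.2 : ℕ)) (G x.1)) ((f ^ i) (E j)) =
        (f ^ i) (G j) := fun j i => by
      rcases lt_or_ge i (L j) with h | h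
      · obtain ⟨x, rfl, rfl, h2⟩ := hEβ j i h
        rw [← h2, Basis.constr_basis]
      · rw [hE0 j i h, hG j i h, map_zero]
    refine ⟨_, β.ext fun x => ?_, h1⟩
    rw [Module.End.mul_apply, Module.End.mul_apply, hβ, ← hE1, h1, ← Module.End.mul_apply f,
      ← Module.End.mul_apply f, ← pow_succ', h1]
  obtain ⟨W, hW, hW1⟩ := hcon (fun j => E (j + 1)) fun j i h => hE0 _ _ ((hL j.le_succ).trans h)
  let c := Infinite.natEmbedding K
  obtain ⟨H, hH, hH1⟩ := hcon (fun j => c j • E j) fun j i h => by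
    rw [map_smul, hE0 j i h, smul_zero]
  let ε : Fin (finrank K V) ≃ Σ j : Fin d, Fin (lam j) :=
    (Fintype.equivFinOfCardEq (Module.finrank_eq_card_basis β).symm).symm
  refine ⟨fun i => (ε i).2, fun i => (ε i).1, W, H, hW, hH, fun s t hst => ?_⟩
  refine LinearIndependent.comp (v := fun x : Σ j : Fin d, Fin (lam j) =>
    f ^ (x.2 : ℕ) * (s • W + t • H) ^ (x.1 : ℕ)) ?_ ε ε.injective
  set T := s • W + t • H with hT
  have hfT : Commute f T := (hW.smul_right s).add_right (hH.smul_right t)
  have hT1 : ∀ j i, T ((f ^ i) (E j)) = s • (f ^ i) (E (j + 1)) + (t * c j) • (f ^ i) (E j) :=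
    fun j i => by simp [hT, hW1, hH1, smul_smul]
  rcases eq_or_ne s 0 with rfl | hs
  · have ht : t ≠ 0 := hst.resolve_left fun h => h rfl
    have hT2 : ∀ j i m, (T ^ m) ((f ^ i) (E j)) = (t * c j) ^ m • (f ^ i) (E j) := fun j i m => by
      induction m with
      | zero => simp
      | succ m ih => rw [pow_succ', Module.End.mul_apply, ih, map_smul, hT1, zero_smul, zero_add,
          smul_smul, pow_succ]
    refine indep_of_apply (∑ l : Fin d, E l) (Fintype.linearIndependent_iff.2 fun g hg y => ?_)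
    have hrep : ∀ (l : Fin d) (i : ℕ) (z : Σ j : Fin d, Fin (lam j)),
        β.repr ((f ^ i) (E l)) z = if z.1 = l ∧ (z.2 : ℕ) = i then 1 else 0 := fun l i z => by
      rcases lt_or_ge i (L l) with h | h
      · obtain ⟨x, h1, rfl, h2⟩ := hEβ l i h
        obtain rfl := Fin.ext h1
        rw [← h2, Basis.repr_self, Finsupp.single_apply]
        refine if_congr ⟨fun h => h ▸ ⟨rfl, rfl⟩, fun h => ?_⟩ rfl rfl
        obtain ⟨x1, x2⟩ := x
        obtain ⟨z1, z2⟩ := z
        obtain ⟨h3, h4⟩ := h
        subst h3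
        exact congrArg (Sigma.mk _) (Fin.ext h4.symm)
      · rw [hE0 _ _ h, map_zero, Finsupp.zero_apply, if_neg]
        rintro ⟨rfl, rfl⟩
        rw [hL1] at h
        exact absurd z.2.2 h.not_gt
    let p : K[X] := ∑ x : Σ j : Fin d, Fin (lam j),
      if (y.2 : ℕ) = x.2 then monomial (x.1 : ℕ) (g x) else 0
    have hex : ∃ m, L m ≤ y.2 := ⟨d, by simp [L]⟩
    have hp : p = 0 := by
      refine Polynomial.eq_zero_of_degree_lt_of_eval_index_eq_zero (Finset.range (Nat.find hex))
        (v := fun l => t * c l) (fun l _ l' _ h => c.injective (mul_left_cancel₀ ht h)) ?_ ?_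
      · rw [Finset.card_range, ← mem_degreeLT]
        refine sum_mem fun x _ => ?_
        split_ifs with h
        · rw [mem_degreeLT]
          refine (degree_monomial_le _ _).trans_lt (Nat.cast_lt.2 ?_)
          by_contra h1
          have h2 := (hL (not_lt.1 h1)).trans (Nat.find_spec hex)
          rw [hL1, h] at h2
          exact absurd x.2.2 h2.not_gt
        · exact zero_mem _
      · intro l hl
        obtain ⟨z, rfl, h1, -⟩ := hEβ l y.2
          (not_le.1 (Nat.find_min hex (Finset.mem_range.1 hl)))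
        have h2 := congrArg (fun w => β.repr w z) hg
        simp only [(hfT.pow_pow _ _).eq, Module.End.mul_apply, map_sum, hT2, map_smul,
          Finsupp.coe_finsetSum, Finset.sum_apply, Finsupp.smul_apply, hrep, map_zero,
          Finsupp.zero_apply, ite_and, smul_ite, smul_zero, Finset.sum_ite_eq, Finset.mem_univ,
          if_true, h1, smul_eq_mul, mul_one] at h2
        rw [← h2, eval_finsetSum]
        refine Finset.sum_congr rfl fun x _ => ?_
        split_ifs <;> simp
    have h1 := congrArg (fun q => q.coeff y.1) hp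
    simp only [p, finsetSum_coeff, coeff_zero] at h1
    rw [Finset.sum_eq_single y] at h1
    · simpa using h1
    · intro x _ hx
      split_ifs with h
      · rw [coeff_monomial, if_neg]
        intro h2
        obtain ⟨x1, x2⟩ := x
        obtain ⟨y1, y2⟩ := y
        obtain rfl := Fin.ext h2
        exact hx (congrArg (Sigma.mk _) (Fin.ext h.symm))
      · rfl
    · simp
  · refine indep_of_apply (E 0) (linearIndependent_of_top_le_span_of_card_eq_finrank ?_
      (Module.finrank_eq_card_basis β).symm)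
    let U : ℕ → Submodule K V := fun j => Submodule.span K {w | ∃ l < j, ∃ i, w = (f ^ i) (E l)}
    have hU : ∀ j, ∀ w ∈ U j, T w ∈ U (j + 1) := fun j w hw => by
      induction hw using Submodule.span_induction with
      | mem w hw =>
        obtain ⟨l, hl, i, rfl⟩ := hw
        rw [hT1]
        exact add_mem (Submodule.smul_mem _ _ (Submodule.subset_span ⟨_, by omega, _, rfl⟩))
          (Submodule.smul_mem _ _ (Submodule.subset_span ⟨_, by omega, _, rfl⟩))
      | zero => simp
      | add x y _ _ hx hy => rw [map_add]; exact add_mem hx hy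
      | smul r x _ hx => rw [map_smul]; exact Submodule.smul_mem _ _ hx
    have hT2 : ∀ i j, (T ^ j) ((f ^ i) (E 0)) - s ^ j • (f ^ i) (E j) ∈ U j := fun i j => by
      induction j with
      | zero => simp
      | succ j ih =>
        have h1 := add_mem (hU j _ ih) (Submodule.smul_mem (U (j + 1)) (s ^ j * (t * c j))
          (Submodule.subset_span ⟨j, j.lt_succ_self, i, rfl⟩))
        rw [map_sub, map_smul, hT1] at h1
        convert h1 using 1
        rw [pow_succ', Module.End.mul_apply, pow_succ]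
        module
    have hUS : ∀ j, U j ≤ Submodule.span K (Set.range fun x : Σ j : Fin d, Fin (lam j) =>
        (f ^ (x.2 : ℕ) * T ^ (x.1 : ℕ)) (E 0)) := fun j => by
      induction j with
      | zero => exact Submodule.span_le.2 fun w ⟨l, hl, _⟩ => absurd hl l.not_lt_zero
      | succ j ih =>
        refine Submodule.span_le.2 ?_
        rintro w ⟨l, hl, i, rfl⟩
        rcases Nat.lt_succ_iff_lt_or_eq.1 hl with hl | rfl
        · exact ih (Submodule.subset_span ⟨l, hl, i, rfl⟩)
        · rcases lt_or_ge i (L l) with h | h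
          · obtain ⟨x, rfl, rfl, -⟩ := hEβ l i h
            have h1 := sub_mem (Submodule.subset_span (Set.mem_range_self x)) (ih (hT2 x.2 x.1))
            simp only [(hfT.pow_pow _ _).eq, Module.End.mul_apply, sub_sub_cancel] at h1
            simpa only [(hfT.pow_pow _ _).eq, Module.End.mul_apply, SetLike.mem_coe] using
              (Submodule.smul_mem_iff _ (pow_ne_zero _ hs)).1 h1
          · rw [hE0 _ _ h]
            exact zero_mem _
    refine le_trans ?_ (hUS d)
    rw [← β.span_eq]
    refine Submodule.span_mono ?_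
    rintro _ ⟨x, rfl⟩
    exact ⟨x.1, x.1.2, x.2, by rw [hβ, hE1]⟩

end Pool.Agent.Lib.MP_9e3d42_al.NS
end

-- part Pool.Agent.Lib.MP_9e3d42_al.NS
section

/-! Commuting pairs with a small centraliser generate an algebra of full dimension. -/

open Matrix Module

namespace Pool.Agent.Lib.MP_9e3d42_al.NS

variable {k : Type*} [Field k]

theorem exists_split {E F G : Type*} [AddCommGroup E] [Module k E] [AddCommGroup F] [Module k F]
    [AddCommGroup G] [Module k G] [FiniteDimensional k E] [FiniteDimensional k G]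
    (L : E →ₗ[k] F) (h : finrank k (LinearMap.ker L) ≤ finrank k G) :
    ∃ (ρ : F →ₗ[k] E) (ι : G →ₗ[k] E) (π : E →ₗ[k] G), ρ ∘ₗ L + ι ∘ₗ π = LinearMap.id := by
  obtain ⟨P, hP⟩ := (LinearMap.ker L).subtype.exists_leftInverse_of_injective
    (Submodule.ker_subtype _)
  obtain ⟨j, hj⟩ := finrank_le_iff_exists_linearMap.1 h
  obtain ⟨j', hj'⟩ := j.exists_leftInverse_of_injective (LinearMap.ker_eq_bot.2 hj)
  obtain ⟨ρ, hρ⟩ := LinearMap.exists_extend (((LinearMap.ker L).liftQ
    (LinearMap.id - (LinearMap.ker L).subtype ∘ₗ P) fun x hx => by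
      have := LinearMap.congr_fun hP ⟨x, hx⟩
      simp only [LinearMap.comp_apply, Submodule.subtype_apply] at this
      simp [this]) ∘ₗ L.quotKerEquivRange.symm.toLinearMap)
  refine ⟨ρ, (LinearMap.ker L).subtype ∘ₗ j', j ∘ₗ P, LinearMap.ext fun x => ?_⟩
  have h1 := LinearMap.congr_fun hρ ⟨L x, x, rfl⟩
  have h2 := LinearMap.congr_fun hj' (P x)
  simp only [LinearMap.comp_apply, Submodule.subtype_apply, LinearEquiv.coe_coe,
    LinearMap.quotKerEquivRange_symm_apply_image, Submodule.mkQ_apply, Submodule.liftQ_apply,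
    LinearMap.id_apply, LinearMap.sub_apply] at h1 h2
  simp [h1, h2]

/-- A matrix as a function on pairs. -/
def unc (k : Type*) [Field k] (n : ℕ) : Matrix (Fin n) (Fin n) k ≃ₗ[k] (Fin n × Fin n → k) where
  toFun A p := A p.1 p.2
  invFun v := Matrix.of fun i j => v (i, j)
  map_add' _ _ := rfl
  map_smul' _ _ := rfl
  left_inv _ := rfl
  right_inv _ := rfl

theorem indep_iff {n : ℕ} (a b : Fin n → ℕ) (Y T : Matrix (Fin n) (Fin n) k) :
    (LinearIndependent k fun i => Y ^ a i * T ^ b i) ↔ Function.Injective (mon a b Y T).mulVec := by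
  rw [Matrix.mulVec_injective_iff, ← (unc k n).toLinearMap.linearIndependent_iff (unc k n).ker]
  rfl

theorem ns_matrix {n : ℕ} (Y Z : Matrix (Fin n) (Fin n) k) (hc : Commute Y Z)
    (hn : IsNilpotent Y)
    (hdim : finrank k (LinearMap.ker ((toLin' (adM Y)).prod (toLin' (adM Z)))) ≤ n) :
    ∃ a b : Fin n → ℕ, LinearIndependent k fun i => Y ^ a i * Z ^ b i := by
  obtain ⟨ρ, ι, π, h⟩ := exists_split (G := Fin n → k) _ (hdim.trans (by simp))
  have h1 : LinearMap.toMatrix' (ρ ∘ₗ LinearMap.inl k _ _) * adM Y +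
      LinearMap.toMatrix' (ρ ∘ₗ LinearMap.inr k _ _) * adM Z +
      LinearMap.toMatrix' ι * LinearMap.toMatrix' π = 1 := by
    apply Matrix.toLin'.injective
    rw [map_add, map_add, toLin'_mul, toLin'_mul, toLin'_mul, toLin'_one, ← h]
    simp only [toLin'_toMatrix']
    congr 1
    refine LinearMap.ext fun v => ?_
    simp [← map_add]
  let K := AlgebraicClosure k
  let c := algebraMap k K
  have h2 := congrArg (fun A => A.map c) h1
  simp only [Matrix.map_add _ (map_add c), Matrix.map_mul, adM_map,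
    Matrix.map_one _ (map_zero c) (map_one c)] at h2
  let φ : Matrix (Fin n) (Fin n) K ≃ₐ[K] Module.End K (Fin n → K) := Matrix.toLinAlgEquiv'
  have h3 := exists_pencil (φ (Y.map c)) ((hn.map c.mapMatrix).map φ)
  rw [Module.finrank_fin_fun] at h3
  obtain ⟨a, b, W, H, hW, hH, h3⟩ := h3
  obtain ⟨W, rfl⟩ := φ.surjective W
  obtain ⟨H, rfl⟩ := φ.surjective H
  have h4 := core a b (Y.map c) (Z.map c) W H (hc.map c.mapMatrix) (hW.of_map φ.injective)
    (hH.of_map φ.injective) _ _ _ _ h2 fun s t hst => by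
      have h5 : LinearIndependent K fun i => (Y.map c) ^ a i * (s • W + t • H) ^ b i :=
        LinearIndependent.of_comp φ.toLinearMap (by
          have h6 : (φ.toLinearMap ∘ fun i => (Y.map c) ^ a i * (s • W + t • H) ^ b i) =
              fun i => φ (Y.map c) ^ a i * (s • φ W + t • φ H) ^ b i := funext fun i => by simp
          exact h6 ▸ h3 s t hst)
      obtain ⟨η, hη⟩ := (toLin' (mon a b (Y.map c) (s • W + t • H))).exists_leftInverse_of_injective
        (LinearMap.ker_eq_bot.2 ((indep_iff ..).1 h5))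
      refine ⟨LinearMap.toMatrix' η, Matrix.toLin'.injective ?_⟩
      rw [toLin'_mul, toLin'_toMatrix', hη, toLin'_one]
  rw [← mon_map, ← Matrix.map_mul, ← RingHom.mapMatrix_apply, ← RingHom.map_det,
    map_ne_zero] at h4
  refine ⟨a, b, (indep_iff ..).2 (Function.Injective.of_comp
    (f := (LinearMap.toMatrix' π).mulVec) ?_)⟩
  have h5 := Matrix.mulVec_injective_iff_isUnit.2 ((Matrix.isUnit_iff_isUnit_det _).2 h4.isUnit)
  convert h5 using 1
  funext v
  simp

theorem ns {V : Type*} [AddCommGroup V] [Module k V] [FiniteDimensional k V]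
    (f g : Module.End k V) (hc : Commute f g) (hn : IsNilpotent f)
    (C : Submodule k (Module.End k V)) (hC : ∀ u, Commute f u → Commute g u → u ∈ C)
    (hdim : finrank k C ≤ finrank k V) :
    ∃ a b : Fin (finrank k V) → ℕ, LinearIndependent k fun i => f ^ a i * g ^ b i := by
  let φ := (LinearMap.toMatrixAlgEquiv (Module.finBasis k V)).symm
  obtain ⟨Y, rfl⟩ := φ.surjective f
  obtain ⟨Z, rfl⟩ := φ.surjective g
  obtain ⟨a, b, h⟩ := ns_matrix Y Z (hc.of_map φ.injective)
    ((IsNilpotent.map_iff φ.injective).1 hn) (le_trans (by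
      rw [← LinearEquiv.finrank_map_eq ((unc k _).symm.trans φ.toLinearEquiv)]
      refine Submodule.finrank_mono ?_
      rintro _ ⟨v, hv, rfl⟩
      obtain ⟨A, rfl⟩ := (unc k _).surjective v
      have h1 : ∀ T, toLin' (adM T) (unc k _ A) = 0 → Commute (φ T) (φ A) := fun T hT => by
        refine Commute.map (sub_eq_zero.1 ((unc k _).injective ?_)) φ
        rw [map_zero, ← hT]
        exact (adM_mulVec T A).symm
      simpa using hC _ (h1 _ (congrArg Prod.fst hv)) (h1 _ (congrArg Prod.snd hv))) hdim)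
  refine ⟨a, b, ?_⟩
  have h6 : (φ.toLinearMap ∘ fun i => Y ^ a i * Z ^ b i) = fun i => φ Y ^ a i * φ Z ^ b i :=
    funext fun i => by simp
  exact h6 ▸ h.map' φ.toLinearMap φ.toLinearEquiv.ker

end Pool.Agent.Lib.MP_9e3d42_al.NS
end
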