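import Pool.Agent.Lib.MP_9e3d42_al.Main
import Pool.Agent.Lib.MP_9e3d42_al.NS

/-! The Huneke-Wiegand condition for rank one modules in codimension two. -/

open Module TensorProduct Pointwise

namespace Pool.Agent.Lib.MP_9e3d42_al

/-- A finite-dimensional algebra generated by two nilpotent elements, with small socle. -/
structure Gor (k : Type*) [Field k] {A : Type*} [CommRing A] [Algebra k A] (y z Δ : A) : Prop where
  hy : IsNilpotent y
  hz : IsNilpotent z
  gen : Algebra.adjoin k {y, z} = ⊤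
  soc : ∀ h : A, y * h = 0 → z * h = 0 → ∃ κ : k, h = κ • Δ

section art

variable {k A : Type*} [Field k] [CommRing A] [Algebra k A] {y z Δ : A}

lemma Gor.finite (h : Gor k y z Δ) : FiniteDimensional k A := by
  have h1 : ∀ w : A, IsNilpotent w → IsIntegral k w := fun w ⟨n, hn⟩ =>
    ⟨Polynomial.X ^ n, Polynomial.monic_X_pow n, by simpa using hn⟩
  have h2 := Algebra.finite_adjoin_of_finite_of_isIntegral (R := k) (s := ({y, z} : Set A))
    (Set.toFinite _) (by
      rintro w (rfl | rfl)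
      exacts [h1 _ h.hy, h1 _ h.hz])
  rw [h.gen] at h2
  exact Module.Finite.equiv (Subalgebra.topEquiv (R := k) (A := A)).toLinearEquiv

lemma Gor.mem (h : Gor k y z Δ) (K : Ideal A) (hK : K ≠ ⊥) : Δ ∈ K ∧ Δ ≠ 0 := by
  have h1 : IsNilpotent (Ideal.span {y, z}) :=
    (Ideal.FG.isNilpotent_iff_le_nilradical (Submodule.fg_span (Set.toFinite _))).mpr (by
      rw [Ideal.span_le]
      rintro w (rfl | rfl)
      exacts [h.hy, h.hz])
  obtain ⟨v, hv, hv0, h2⟩ := exists_socle h1 K hK
  obtain ⟨κ, rfl⟩ := h.soc v (h2 y (Ideal.subset_span (by simp)))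
    (h2 z (Ideal.subset_span (by simp)))
  have hκ : κ ≠ 0 := by
    rintro rfl
    exact hv0 (zero_smul _ _)
  refine ⟨?_, fun h3 => hv0 (by rw [h3, smul_zero])⟩
  have := K.smul_of_tower_mem κ⁻¹ hv
  rwa [smul_smul, inv_mul_cancel₀ hκ, one_smul] at this

lemma Gor.frobenius [Nontrivial A] (h : Gor k y z Δ) :
    ∃ τ : Module.Dual k A, ∀ b : A, (∀ x, τ (b * x) = 0) → b = 0 := by
  obtain ⟨τ, hτ⟩ := Module.Projective.exists_dual_ne_zero k (h.mem ⊤ top_ne_bot).2
  refine ⟨τ, fun b hb => ?_⟩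
  by_contra hb0
  obtain ⟨x, hx⟩ := Ideal.mem_span_singleton.1
    (h.mem (Ideal.span {b}) (by rwa [ne_eq, Ideal.span_singleton_eq_bot])).1
  exact hτ (hx ▸ hb x)

lemma Gor.free [Nontrivial A] (h : Gor k y z Δ) {N : Type*} [AddCommGroup N] [Module A N]
    [Module k N] [IsScalarTower k A N] [FiniteDimensional k N] (hd : finrank k N = finrank k A)
    (hE : finrank k (Module.End A N) ≤ finrank k N) : Module.Free A N := by
  have := h.finite
  let ψ : A →ₐ[k] Module.End k N := Algebra.lsmul k k N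
  obtain ⟨a, b, hab⟩ := NS.ns (ψ y) (ψ z) ((Commute.all y z).map ψ) (h.hy.map ψ)
    (LinearMap.range (LinearMap.restrictScalarsₗ k A N N k)) (fun φ h1 h2 => by
      have hcomm : ∀ b : A, ∀ w, φ (b • w) = b • φ w := by
        intro b
        have hb : b ∈ Algebra.adjoin k {y, z} := h.gen ▸ Algebra.mem_top
        induction hb using Algebra.adjoin_induction with
        | mem x hx =>
          intro w
          rcases hx with rfl | rfl
          exacts [(LinearMap.congr_fun h1.eq w).symm, (LinearMap.congr_fun h2.eq w).symm]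
        | algebraMap r => intro w; simp
        | add x z _ _ hx hz => intro w; simp [add_smul, hx, hz]
        | mul x z _ _ hx hz => intro w; simp [mul_smul, hx, hz]
      exact ⟨⟨φ.toAddHom, hcomm⟩, rfl⟩)
    ((LinearMap.finrank_range_of_inj (LinearMap.restrictScalars_injective k)).trans_le hE)
  have h1 : finrank k A ≤ finrank k (LinearMap.range ψ.toLinearMap) := by
    have h2 : LinearIndependent k fun i =>
        (⟨_, y ^ a i * z ^ b i, rfl⟩ : LinearMap.range ψ.toLinearMap) :=
      LinearIndependent.of_comp (Submodule.subtype _) (by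
        have h3 : ((LinearMap.range ψ.toLinearMap).subtype ∘ fun i =>
            (⟨_, y ^ a i * z ^ b i, rfl⟩ : LinearMap.range ψ.toLinearMap)) =
            fun i => ψ y ^ a i * ψ z ^ b i := funext fun i => by simp
        exact h3 ▸ hab)
    simpa [hd] using h2.fintype_card_le_finrank
  have h2 : LinearMap.ker ψ.toLinearMap = ⊥ := by
    have h3 := LinearMap.finrank_range_add_finrank_ker ψ.toLinearMap
    exact Submodule.finrank_eq_zero.1 (by omega)
  obtain ⟨v, hv⟩ : ∃ v : N, Δ • v ≠ 0 := by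
    by_contra! h3
    exact (h.mem ⊤ top_ne_bot).2 ((LinearMap.ker_eq_bot'.1 h2) Δ (LinearMap.ext h3))
  have h3 : Function.Injective (LinearMap.toSpanSingleton A N v) := by
    rw [← LinearMap.ker_eq_bot]
    by_contra h4
    exact hv (h.mem _ h4).1
  have h4 := (LinearMap.injective_iff_surjective_of_finrank_eq_finrank hd.symm
    (f := (LinearMap.toSpanSingleton A N v).restrictScalars k)).1 h3
  exact Module.Free.of_equiv (LinearEquiv.ofBijective _ ⟨h3, h4⟩)

end art

lemma wiebe {Q : Type*} [CommRing Q] {y z a b c d : Q} (hy : ∀ u, y * u = 0 → u = 0)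
    (hyz : ∀ u v, y * u = z * v → ∃ w, u = z * w ∧ v = y * w)
    (hfg : ∀ u v, (a * y + b * z) * u = (c * y + d * z) * v →
      ∃ w, u = (c * y + d * z) * w ∧ v = (a * y + b * z) * w) {h : Q}
    (h1 : y * h ∈ Ideal.span {a * y + b * z, c * y + d * z})
    (h2 : z * h ∈ Ideal.span {a * y + b * z, c * y + d * z}) :
    ∃ w, h - w * (a * d - b * c) ∈ Ideal.span {a * y + b * z, c * y + d * z} := by
  obtain ⟨p1, q1, h1⟩ := Ideal.mem_span_pair.1 h1
  obtain ⟨p2, q2, h2⟩ := Ideal.mem_span_pair.1 h2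
  obtain ⟨w, h3, h4⟩ := hfg (z * p1 - y * p2) (y * q2 - z * q1) (by
    linear_combination z * h1 - y * h2)
  obtain ⟨u, -, h5⟩ := hyz (p2 + c * w) (p1 - d * w) (by linear_combination -h3)
  obtain ⟨v, -, h6⟩ := hyz (q2 - a * w) (q1 + b * w) (by linear_combination h4)
  refine ⟨w, Ideal.mem_span_pair.2 ⟨u, v, sub_eq_zero.1 (hy _ ?_)⟩⟩
  linear_combination h1 - (a * y + b * z) * h5 - (c * y + d * z) * h6

lemma koszul_of_regular {Q : Type*} [CommRing Q] {f g : Q}
    (h : RingTheory.Sequence.IsWeaklyRegular Q [f, g]) (u v : Q) (huv : f * u = g * v) :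
    ∃ w, u = g * w ∧ v = f * w := by
  rw [RingTheory.Sequence.isWeaklyRegular_cons_iff,
    RingTheory.Sequence.isWeaklyRegular_singleton_iff] at h
  have h1 : (Submodule.Quotient.mk v : QuotSMulTop f Q) = 0 := h.2 (by
    change g • (Submodule.Quotient.mk v : QuotSMulTop f Q) = g • 0
    rw [smul_zero, ← Submodule.Quotient.mk_smul, Submodule.Quotient.mk_eq_zero, smul_eq_mul, ← huv]
    exact Submodule.smul_mem_pointwise_smul u f ⊤ trivial)
  rw [Submodule.Quotient.mk_eq_zero, Submodule.mem_smul_pointwise_iff_exists] at h1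
  obtain ⟨w, -, rfl⟩ := h1
  refine ⟨w, h.1 ?_, rfl⟩
  simp only [smul_eq_mul] at huv ⊢
  linear_combination huv

section ps
open MvPowerSeries

variable {k : Type*} [Field k]

lemma ps_koszul (u v : MvPowerSeries (Fin 2) k) (h : X 0 * u = X 1 * v) :
    ∃ w, u = X 1 * w ∧ v = X 0 * w := by
  obtain ⟨w, rfl⟩ : X 0 ∣ v := X_dvd_iff.2 fun m hm => by
    have h1 := coeff_add_monomial_mul (Finsupp.single 1 1) m v 1
    rw [← X_def, ← h, X_dvd_iff.1 (dvd_mul_right _ _) _ (by simp [hm]), one_mul] at h1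
    exact h1.symm
  refine ⟨w, mul_left_cancel₀ (a := X 0) (fun h0 => ?_) (by rw [h]; ring), rfl⟩
  simpa using congrArg (coeff (Finsupp.single 0 1)) h0

lemma ps_decomp (q : MvPowerSeries (Fin 2) k) :
    ∃ a b, q - C (constantCoeff q) = a * X 0 + b * X 1 := by
  classical
  let r : MvPowerSeries (Fin 2) k := fun m => if m 0 = 0 then 0 else coeff m q
  have hr : ∀ m, coeff m r = if m 0 = 0 then 0 else coeff m q := fun _ => rfl
  obtain ⟨a, ha⟩ : X 0 ∣ r := X_dvd_iff.2 fun m hm => by rw [hr, if_pos hm]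
  obtain ⟨b, hb⟩ : X 1 ∣ q - C (constantCoeff q) - r := X_dvd_iff.2 fun m hm => by
    rw [map_sub, map_sub, hr, coeff_C]
    by_cases h : m 0 = 0
    · have : m = 0 := by
        ext i
        fin_cases i
        exacts [h, hm]
      subst this
      simp
    · rw [if_neg h, if_neg (by rintro rfl; simp at h)]
      simp
  exact ⟨a, b, by linear_combination ha + hb⟩

lemma gor_of_ps {f g : MvPowerSeries (Fin 2) k}
    (hfg : RingTheory.Sequence.IsRegular (MvPowerSeries (Fin 2) k) [f, g])
    {A : Type*} [CommRing A] [Algebra k A] [Ring.KrullDimLE 0 A] [IsLocalRing A]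
    (φ : MvPowerSeries (Fin 2) k →ₐ[k] A) (hφ : Function.Surjective φ)
    (hker : ∀ q, φ q = 0 ↔ q ∈ Ideal.span {f, g}) : ∃ Δ, Gor k (φ (X 0)) (φ (X 1)) Δ := by
  have hC : ∀ r : k, φ (C r) = algebraMap k A r := fun r => φ.commutes r
  have h0 : ∀ q, φ q = 0 → constantCoeff q = 0 := fun q hq => by
    by_contra h
    have := (isUnit_iff_constantCoeff.2 (Ne.isUnit h)).map φ
    rw [hq] at this
    exact not_isUnit_zero this
  have hnil : ∀ i, IsNilpotent (φ (X i)) := fun i => by
    refine Ring.KrullDimLE.isNilpotent_iff_mem_nonunits.2 fun h => ?_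
    obtain ⟨w, hw⟩ := h.exists_right_inv
    obtain ⟨w, rfl⟩ := hφ w
    have := h0 (X i * w - 1) (by rw [map_sub, map_mul, hw, map_one, sub_self])
    simp at this
  obtain ⟨a, b, hf⟩ := ps_decomp f
  obtain ⟨c, d, hg⟩ := ps_decomp g
  rw [h0 _ ((hker _).2 (Ideal.subset_span (by simp))), map_zero, sub_zero] at hf hg
  subst hf hg
  have hdec : ∀ w : A, ∃ (κ : k) (s t : A),
      w = algebraMap k A κ + (s * φ (X 0) + t * φ (X 1)) := fun w => by
    obtain ⟨w, rfl⟩ := hφ w
    obtain ⟨s, t, h⟩ := ps_decomp w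
    refine ⟨constantCoeff w, φ s, φ t, ?_⟩
    rw [← hC, ← map_mul, ← map_mul, ← map_add, ← h, ← map_add, add_sub_cancel]
  refine ⟨φ (a * d - b * c), hnil 0, hnil 1, ?_, fun h h1 h2 => ?_⟩
  · have h1 : IsNilpotent (Ideal.span {φ (X 0), φ (X 1)}) :=
      (Ideal.FG.isNilpotent_iff_le_nilradical (Submodule.fg_span (Set.toFinite _))).mpr (by
        rw [Ideal.span_le]
        rintro w (rfl | rfl)
        exacts [hnil 0, hnil 1])
    obtain ⟨n, hn⟩ := h1
    have h2 : ∀ m : ℕ, ∀ w : A, ∃ s ∈ Algebra.adjoin k {φ (X 0), φ (X 1)},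
        w - s ∈ Ideal.span {φ (X 0), φ (X 1)} ^ m := fun m => by
      induction m with
      | zero => exact fun w => ⟨0, zero_mem _, by simp⟩
      | succ m ih =>
        intro w
        obtain ⟨κ, s, t, rfl⟩ := hdec w
        obtain ⟨s', hs, hs'⟩ := ih s
        obtain ⟨t', ht, ht'⟩ := ih t
        refine ⟨algebraMap k A κ + (s' * φ (X 0) + t' * φ (X 1)), add_mem (algebraMap_mem _ _)
          (add_mem (mul_mem hs (Algebra.subset_adjoin (by simp)))
            (mul_mem ht (Algebra.subset_adjoin (by simp)))), ?_⟩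
        rw [pow_succ]
        have m0 : φ (X 0) ∈ Ideal.span {φ (X 0), φ (X 1)} := Ideal.subset_span (by simp)
        have m1 : φ (X 1) ∈ Ideal.span {φ (X 0), φ (X 1)} := Ideal.subset_span (by simp)
        convert add_mem (Ideal.mul_mem_mul hs' m0) (Ideal.mul_mem_mul ht' m1) using 1
        ring
    refine eq_top_iff.2 fun w _ => ?_
    obtain ⟨s, hs, h3⟩ := h2 n w
    rw [hn, Ideal.zero_eq_bot, Ideal.mem_bot, sub_eq_zero] at h3
    exact h3 ▸ hs
  · obtain ⟨h, rfl⟩ := hφ h
    rw [← map_mul, hker] at h1 h2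
    obtain ⟨w, hw⟩ := wiebe (fun u hu => (mul_eq_zero.1 hu).resolve_left fun h0 => by
      simpa using congrArg (coeff (Finsupp.single 0 1)) h0) ps_koszul
      (koszul_of_regular hfg.toIsWeaklyRegular) h1 h2
    rw [← hker, map_sub, sub_eq_zero, map_mul] at hw
    obtain ⟨κ, s, t, h3⟩ := hdec (φ w)
    have h4 : φ (X 0) * φ (a * d - b * c) = 0 := by
      rw [← map_mul, hker]
      exact Ideal.mem_span_pair.2 ⟨d, -b, by ring⟩
    have h5 : φ (X 1) * φ (a * d - b * c) = 0 := by
      rw [← map_mul, hker]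
      exact Ideal.mem_span_pair.2 ⟨-c, a, by ring⟩
    refine ⟨κ, ?_⟩
    rw [hw, h3, Algebra.smul_def]
    linear_combination s * h4 + t * h5

lemma ps_dim {f g : MvPowerSeries (Fin 2) k}
    (hfg : RingTheory.Sequence.IsRegular (MvPowerSeries (Fin 2) k) [f, g]) :
    Ring.KrullDimLE 0 (MvPowerSeries (Fin 2) k ⧸ Ideal.span {f, g}) := by
  have h1 := ringKrullDim_add_length_eq_ringKrullDim_of_isRegular _ hfg
  have h2 := ringKrullDim_le_spanFinrank_maximalIdeal (MvPowerSeries (Fin 2) k)
  have h3 : IsLocalRing.maximalIdeal (MvPowerSeries (Fin 2) k) = Ideal.span {X 0, X 1} := by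
    refine le_antisymm (fun q hq => ?_) (Ideal.span_le.2 ?_)
    · obtain ⟨a, b, h⟩ := ps_decomp q
      have h4 : constantCoeff q = 0 := by
        by_contra h4
        exact hq (isUnit_iff_constantCoeff.2 (Ne.isUnit h4))
      rw [h4, map_zero, sub_zero] at h
      exact Ideal.mem_span_pair.2 ⟨a, b, h.symm⟩
    · rintro w (rfl | rfl) <;> simp [isUnit_iff_constantCoeff]
  have h4 : (IsLocalRing.maximalIdeal (MvPowerSeries (Fin 2) k)).spanFinrank ≤ 2 := by
    rw [h3]
    exact (Submodule.spanFinrank_span_le_ncard_of_finite (Set.toFinite _)).trans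
      (Set.ncard_insert_le _ _ |>.trans (by simp))
  have h5 : Ideal.ofList [f, g] = Ideal.span {f, g} := by
    rw [Ideal.ofList]
    congr 1
    ext w
    simp
  rw [h5] at h1
  rw [← h1] at h2
  have h6 := h2.trans (Nat.cast_le.2 h4)
  rw [Ring.krullDimLE_iff]
  generalize ringKrullDim (MvPowerSeries (Fin 2) k ⧸ Ideal.span {f, g}) = d at h6
  induction d with
  | bot => exact bot_le
  | coe d =>
    induction d with
    | top => exact absurd h6 (by simp only [List.length_cons, List.length_nil]; decide)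
    | coe d =>
      simp only [List.length_cons, List.length_nil] at h6
      rw [← WithBot.coe_natCast, ← WithBot.coe_add, WithBot.coe_le_coe,
        ← Nat.cast_add, Nat.cast_le] at h6
      exact_mod_cast (by omega : d ≤ 0)

end ps

variable {R : Type*} [CommRing R] [IsDomain R] [IsLocalRing R] [IsNoetherianRing R]
  {k : Type*} [Field k] {x : R}

theorem free_of_gor (hx : x ≠ 0) [Algebra k (R ⧸ Ideal.span {x})]
    [Nontrivial (R ⧸ Ideal.span {x})] {y z Δ : R ⧸ Ideal.span {x}} (h : Gor k y z Δ)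
    (M : Type*) [AddCommGroup M] [Module R M] [Module.Finite R M] [IsTorsionFree R M]
    [IsTorsionFree R (M ⊗[R] Module.Dual R M)] (hM1 : finrank R M = 1) : Module.Free R M := by
  have := h.finite
  have : SMulCommClass R k (R ⧸ Ideal.span {x}) :=
    ⟨fun r κ z => by simp only [Algebra.smul_def]; ring⟩
  have hxm : x ∈ IsLocalRing.maximalIdeal R := by
    by_contra hcon
    have hu : IsUnit x := by simpa using hcon
    exact not_subsingleton (R ⧸ Ideal.span {x})
      (Ideal.Quotient.subsingleton_iff.mpr (Ideal.span_singleton_eq_top.mpr hu))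
  have hxj : x ∈ (⊥ : Ideal R).jacobson := IsLocalRing.maximalIdeal_le_jacobson _ hxm
  have : Ring.KrullDimLE 1 R := by
    have h1 : IsArtinianRing (R ⧸ Ideal.span {x}) := IsArtinianRing.of_finite k _
    rw [isArtinianRing_iff_krullDimLE_zero, Ring.krullDimLE_iff] at h1
    have h2 := ringKrullDim_le_ringKrullDim_quotient_add_encard ({x} : Set R) (by
      rw [Set.singleton_subset_iff, ← Ideal.jacobson_bot]; exact hxj)
    rw [Ring.krullDimLE_iff]
    refine h2.trans ?_
    rw [Set.encard_singleton]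
    calc ringKrullDim (R ⧸ Ideal.span {x}) + ((1 : ℕ∞) : WithBot ℕ∞)
        ≤ ((0 : ℕ) : WithBot ℕ∞) + ((1 : ℕ∞) : WithBot ℕ∞) := by gcongr
      _ = _ := by simp
  have hiso := exists_isog (R := R) M
  have d1 := finrank_eq_of_isog (k := k) hx hiso
  have d2 := finrank_eq_of_isog (k := k) hx hiso.dual
  have d3 := finrank_eq_of_isog (k := k) hx (hiso.tensor hiso.dual)
  rw [Module.finrank_tensorProduct (M := Fin (finrank R M) → R)] at d3
  rw [(Module.Free.chooseBasis R _).toDualEquiv.finrank_eq.symm] at d2 d3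
  obtain ⟨τ, hτ⟩ := h.frobenius
  have hM : FiniteDimensional k ((R ⧸ Ideal.span {x}) ⊗[R] M) :=
    Module.Finite.trans (R ⧸ Ideal.span {x}) _
  have hM' : FiniteDimensional k ((R ⧸ Ideal.span {x}) ⊗[R] Module.Dual R M) :=
    Module.Finite.trans (R ⧸ Ideal.span {x}) _
  have h1 := finrank_end_le τ hτ (d2.trans d1.symm) _ (dual_injective hx M)
  rw [← ((TensorProduct.AlgebraTensorModule.distribBaseChange R (R ⧸ Ideal.span {x}) M
    (Module.Dual R M)).restrictScalars k).finrank_eq, d3] at h1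
  rw [Module.finrank_fin_fun, hM1] at d1 h1
  have h2 : Module.Free (R ⧸ Ideal.span {x}) ((R ⧸ Ideal.span {x}) ⊗[R] M) :=
    h.free (by omega) (by omega)
  have : Module.FinitePresentation R M := Module.finitePresentation_of_finite R M
  refine (Module.free_quotSMulTop_iff_free R M hxj (smul_right_injective M hx)).mp ?_
  exact Module.Free.of_equiv ((QuotSMulTop.equivQuotTensor x M).extendScalarsOfSurjective
    Ideal.Quotient.mk_surjective).symm

theorem free_of_ps (hx : x ≠ 0) {f g : MvPowerSeries (Fin 2) k}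
    (hfg : RingTheory.Sequence.IsRegular (MvPowerSeries (Fin 2) k) [f, g])
    (φ : (R ⧸ Ideal.span {x}) ≃+* (MvPowerSeries (Fin 2) k ⧸ Ideal.span {f, g}))
    (M : Type*) [AddCommGroup M] [Module R M] [Module.Finite R M] [IsTorsionFree R M]
    [IsTorsionFree R (M ⊗[R] Module.Dual R M)] (hM1 : finrank R M = 1) : Module.Free R M := by
  let : Algebra k (R ⧸ Ideal.span {x}) :=
    (φ.symm.toRingHom.comp (algebraMap k _)).toAlgebra
  let ψ : (MvPowerSeries (Fin 2) k ⧸ Ideal.span {f, g}) ≃ₐ[k] (R ⧸ Ideal.span {x}) :=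
    { φ.symm with commutes' := fun _ => rfl }
  have : Nontrivial (MvPowerSeries (Fin 2) k ⧸ Ideal.span {f, g}) := by
    refine Ideal.Quotient.nontrivial_iff.2 fun h => hfg.top_ne_smul ?_
    have h5 : Ideal.ofList [f, g] = Ideal.span {f, g} := by
      rw [Ideal.ofList]
      congr 1
      ext w
      simp
    rw [h5, h, Submodule.top_smul]
  have : Nontrivial (R ⧸ Ideal.span {x}) := φ.toEquiv.nontrivial
  have : IsLocalRing (R ⧸ Ideal.span {x}) :=
    IsLocalRing.of_surjective' (Ideal.Quotient.mk _) Ideal.Quotient.mk_surjective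
  have : Ring.KrullDimLE 0 (R ⧸ Ideal.span {x}) := by
    have h1 := ps_dim hfg
    rw [Ring.krullDimLE_iff] at h1 ⊢
    rwa [ringKrullDim_eq_of_ringEquiv φ]
  obtain ⟨Δ, h⟩ := gor_of_ps hfg (ψ.toAlgHom.comp (Ideal.Quotient.mkₐ k _))
    (ψ.surjective.comp Ideal.Quotient.mk_surjective) fun q => by
      simp [Ideal.Quotient.eq_zero_iff_mem]
  exact free_of_gor hx h M hM1

end Pool.Agent.Lib.MP_9e3d42_al
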