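import Mathlib

-- part Pool.Agent.Lib.MP_9e3d42_al.Semi
section

/-! Linear algebra lemmas: semicontinuity of kernels, kernels of products, homogeneous
factorization. -/

open Module Polynomial

namespace Pool.Agent.Lib.MP_9e3d42_al

section semi

variable {K : Type*} [Field K]

/-- The determinant of a polynomial family of endomorphisms is a polynomial. -/
lemma exists_det_poly {V : Type*} [AddCommGroup V] [Module K V] [FiniteDimensional K V]
    {ι : Type*} [Fintype ι] (T : ι → Module.End K V) (p : ι → K[X]) :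
    ∃ q : K[X], ∀ μ : K, q.eval μ = LinearMap.det (∑ i, (p i).eval μ • T i) := by
  classical
  let b := Module.finBasis K V
  refine ⟨Matrix.det (∑ i, p i • (LinearMap.toMatrix b b (T i)).map Polynomial.C), fun μ => ?_⟩
  have h := (Polynomial.evalRingHom μ).map_det
    (∑ i, p i • (LinearMap.toMatrix b b (T i)).map Polynomial.C)
  rw [Polynomial.coe_evalRingHom] at h
  rw [h, ← LinearMap.det_toMatrix b]
  congr 1
  ext i j
  simp [Matrix.sum_apply]

/-- Upper semicontinuity of the dimension of the kernel in a polynomial family. -/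
lemma finite_bad {U V : Type*} [AddCommGroup U] [Module K U] [FiniteDimensional K U]
    [AddCommGroup V] [Module K V]
    {ι : Type*} [Fintype ι] (T : ι → U →ₗ[K] V) (p : ι → K[X]) :
    ∃ q : K[X], q ≠ 0 ∧ ∀ μ : K, q.eval μ ≠ 0 →
      finrank K (LinearMap.ker (∑ i, (p i).eval μ • T i)) ≤
        finrank K (LinearMap.ker (∑ i, (p i).eval 1 • T i)) := by
  classical
  set Φ : K → U →ₗ[K] V := fun μ => ∑ i, (p i).eval μ • T i with hΦ
  obtain ⟨W, hW⟩ := (LinearMap.ker (Φ 1)).exists_isCompl
  have hinj : LinearMap.ker ((Φ 1) ∘ₗ W.subtype) = ⊥ := by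
    rw [LinearMap.ker_comp, ← Submodule.disjoint_iff_comap_eq_bot]
    exact hW.disjoint.symm
  obtain ⟨P, hP⟩ := LinearMap.exists_leftInverse_of_injective _ hinj
  obtain ⟨q, hq⟩ := exists_det_poly (fun i => P ∘ₗ (T i) ∘ₗ W.subtype) p
  have key : ∀ μ, (∑ i, (p i).eval μ • (P ∘ₗ (T i) ∘ₗ W.subtype)) = P ∘ₗ (Φ μ) ∘ₗ W.subtype := by
    intro μ
    ext w
    simp [hΦ, LinearMap.sum_apply]
  refine ⟨q, ?_, fun μ hμ => ?_⟩
  · intro h0
    have := hq 1
    rw [key, hP, h0] at this
    simp at this
  · rw [hq, key] at hμ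
    have hu : IsUnit (P ∘ₗ (Φ μ) ∘ₗ W.subtype) := by
      rw [LinearMap.isUnit_iff_isUnit_det]; exact isUnit_iff_ne_zero.mpr hμ
    have hk : LinearMap.ker (P ∘ₗ (Φ μ) ∘ₗ W.subtype) = ⊥ :=
      (LinearMap.isUnit_iff_ker_eq_bot _).mp hu
    have hd : Disjoint (LinearMap.ker (Φ μ)) W := by
      rw [Submodule.disjoint_def]
      intro x hx hxW
      have : (⟨x, hxW⟩ : W) ∈ LinearMap.ker (P ∘ₗ (Φ μ) ∘ₗ W.subtype) := by
        simp [LinearMap.mem_ker.mp hx]
      rw [hk] at this
      simpa using this
    have h1 := Submodule.finrank_add_finrank_le_of_disjoint hd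
    have h2 := Submodule.finrank_add_eq_of_isCompl hW
    change finrank K (LinearMap.ker (Φ μ)) ≤ finrank K (LinearMap.ker (Φ 1))
    omega

end semi

section prod

variable {K Λ U : Type*} [Field K] [CommRing Λ] [Algebra K Λ] [AddCommGroup U] [Module K U]
  [FiniteDimensional K U]

/-- kernels of products inside an invariant subspace -/
lemma finrank_ker_mul_le (ψ : Λ →ₐ[K] Module.End K U) (W : Submodule K U)
    (hW : ∀ f : Λ, ∀ w ∈ W, ψ f w ∈ W) (f g : Λ) :
    finrank K (W ⊓ LinearMap.ker (ψ (f * g)) : Submodule K U) ≤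
      finrank K (W ⊓ LinearMap.ker (ψ f) : Submodule K U) +
      finrank K (W ⊓ LinearMap.ker (ψ g) : Submodule K U) := by
  let φ : (W ⊓ LinearMap.ker (ψ (f * g)) : Submodule K U) →ₗ[K] U :=
    (ψ g) ∘ₗ Submodule.subtype _
  have h1 := LinearMap.finrank_range_add_finrank_ker φ
  have h2 : finrank K (LinearMap.range φ) ≤
      finrank K (W ⊓ LinearMap.ker (ψ f) : Submodule K U) := by
    apply Submodule.finrank_mono
    rintro _ ⟨⟨w, hw1, hw2⟩, rfl⟩
    refine ⟨hW g w hw1, ?_⟩
    simpa [φ] using hw2
  have h3 : finrank K (LinearMap.ker φ) ≤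
      finrank K (W ⊓ LinearMap.ker (ψ g) : Submodule K U) := by
    rw [← Submodule.finrank_map_subtype_eq]
    apply Submodule.finrank_mono
    rintro _ ⟨⟨w, hw1, hw2⟩, hw, rfl⟩
    exact ⟨hw1, by simpa [φ] using hw⟩
  omega

lemma finrank_ker_prod_le (ψ : Λ →ₐ[K] Module.End K U) (W : Submodule K U)
    (hW : ∀ f : Λ, ∀ w ∈ W, ψ f w ∈ W) (s : Multiset Λ) (B : ℕ)
    (hB : ∀ f ∈ s, finrank K (W ⊓ LinearMap.ker (ψ f) : Submodule K U) ≤ B) :
    finrank K (W ⊓ LinearMap.ker (ψ s.prod) : Submodule K U) ≤ s.card * B := by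
  induction s using Multiset.induction_on with
  | empty =>
    have : (W ⊓ LinearMap.ker (ψ (0 : Multiset Λ).prod) : Submodule K U) = ⊥ := by
      simp [Module.End.one_eq_id]
    rw [this]; simp
  | cons a s ih =>
    rw [Multiset.prod_cons, Multiset.card_cons]
    have h1 := finrank_ker_mul_le ψ W hW a s.prod
    have h2 := hB a (Multiset.mem_cons_self a s)
    have h3 := ih (fun f hf => hB f (Multiset.mem_cons_of_mem hf))
    nlinarith

end prod

section factor

variable {K Λ : Type*} [Field K] [IsAlgClosed K] [CommRing Λ] [Algebra K Λ]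

/-- `u^a - v^a = ∏ (u - ζ v)` over the `a`-th roots of unity counted with multiplicity. -/
lemma exists_factor (a : ℕ) (ha : 0 < a) :
    ∃ s : Multiset K, s.card = a ∧ (∀ ζ ∈ s, ζ ^ a = 1) ∧
      ∀ u v : Λ, u ^ a - v ^ a = (s.map (fun ζ => u - ζ • v)).prod := by
  classical
  set p : K[X] := X ^ a - C 1 with hp
  have hm : p.Monic := monic_X_pow_sub_C 1 ha.ne'
  have hdeg : p.natDegree = a := natDegree_X_pow_sub_C
  have hsp : p.Splits := IsAlgClosed.splits p
  have hcard : p.roots.card = a := by rw [← hdeg]; exact hsp.natDegree_eq_card_roots.symm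
  refine ⟨p.roots, hcard, fun ζ hζ => ?_, fun u v => ?_⟩
  · have := (mem_roots hm.ne_zero).mp hζ
    simpa [hp, sub_eq_zero] using this
  · have hprod : p = (p.roots.map fun ζ => X - C ζ).prod := hsp.eq_prod_roots_of_monic hm
    have gen : ∀ s : Multiset K,
        MvPolynomial.aeval ![u, v] (((s.map fun ζ => X - C ζ).prod).homogenize s.card) =
          (s.map (fun ζ => u - ζ • v)).prod := by
      intro s
      induction s using Multiset.induction_on with
      | empty => simp
      | cons z s ih =>
        rw [Multiset.map_cons, Multiset.prod_cons, Multiset.card_cons, add_comm,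
          homogenize_mul _ _ (natDegree_X_sub_C_le z) (by
            rw [natDegree_multiset_prod_X_sub_C_eq_card]), map_mul, ih, Multiset.map_cons,
          Multiset.prod_cons]
        congr 1
        simp [homogenize_sub, Algebra.smul_def]
    rw [← gen, ← hprod, hcard, hp]
    simp [homogenize_sub]

end factor

end Pool.Agent.Lib.MP_9e3d42_al
end

-- part Pool.Agent.Lib.MP_9e3d42_al.SB
section

/-! The bimodule inequality `dim U ≤ e · dim (invariants)` for telescopic relations. -/

open Module Polynomial TensorProduct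

namespace Pool.Agent.Lib.MP_9e3d42_al

/-- The numerical conditions on a telescopic system of relations
`y_i ^ a_i = γ_i ∏_{j < i} y_j ^ m_ij`, homogeneous for the weights `n`. -/
structure Tele {k : Type*} [Field k] {c : ℕ} (a n : Fin c → ℕ) (m : Fin c → Fin c → ℕ)
    (γ : Fin c → k) : Prop where
  a_pos : ∀ i, 0 < a i
  n_pos : ∀ i, 0 < n i
  m_zero : ∀ i j, i ≤ j → m i j = 0
  gcd_eq : ∀ i, Nat.gcd (n i) (∏ j ∈ Finset.Ici i, a j) = ∏ j ∈ Finset.Ioi i, a j
  hom : ∀ i, γ i ≠ 0 → ∑ j, m i j * n j = a i * n i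

lemma Tele.map {k K : Type*} [Field k] [Field K] [Algebra k K] {c : ℕ} {a n : Fin c → ℕ}
    {m : Fin c → Fin c → ℕ} {γ : Fin c → k} (h : Tele a n m γ) :
    Tele a n m (fun i => algebraMap k K (γ i)) :=
  ⟨h.a_pos, h.n_pos, h.m_zero, h.gcd_eq, fun i hi => h.hom i (fun h0 => hi (by simp [h0]))⟩

/-- the twisting root of unity -/
lemma Tele.exists_theta {K : Type*} [Field K] [IsAlgClosed K] {c : ℕ} {a n : Fin c → ℕ}
    {m : Fin c → Fin c → ℕ} {γ : Fin c → K} (h : Tele a n m γ) (i : Fin c) (ζ : K)
    (hζ : ζ ^ a i = 1) :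
    ∃ θ : K, θ ^ (∏ j, a j) = 1 ∧ θ ^ n i = ζ ∧ ∀ j, j < i → θ ^ n j = 1 := by
  classical
  set d := ∏ j ∈ Finset.Ioi i, a j with hd
  have hdpos : 0 < d := Finset.prod_pos fun j _ => h.a_pos j
  have hIci : ∏ j ∈ Finset.Ici i, a j = a i * d := by
    rw [← Finset.Ioi_insert, Finset.prod_insert (by simp)]
  have hg := h.gcd_eq i
  rw [hIci, ← hd] at hg
  obtain ⟨n', hn'⟩ : d ∣ n i := hg ▸ Nat.gcd_dvd_left _ _
  have hcop : Nat.Coprime n' (a i) := by
    rw [hn', mul_comm (a i) d, Nat.gcd_mul_left] at hg
    exact Nat.eq_of_mul_eq_mul_left hdpos (by rw [mul_one]; exact hg)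
  obtain ⟨u, hu⟩ : ∃ u, n' * u ≡ 1 [MOD a i] := by
    obtain ⟨u, hu⟩ := Nat.exists_mul_mod_eq_of_coprime 1 hcop (h.a_pos i).ne'
    exact ⟨u, hu.2⟩
  obtain ⟨θ, hθ⟩ := IsAlgClosed.exists_pow_nat_eq (ζ ^ u) hdpos
  have h1 : θ ^ (a i * d) = 1 := by
    rw [mul_comm, pow_mul, hθ, ← pow_mul, mul_comm, pow_mul, hζ, one_pow]
  refine ⟨θ, ?_, ?_, fun j hj => ?_⟩
  · obtain ⟨w, hw⟩ : a i * d ∣ ∏ j, a j := by
      rw [← hIci]; exact Finset.prod_dvd_prod_of_subset _ _ _ (Finset.subset_univ _)
    rw [hw, pow_mul, h1, one_pow]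
  · rw [hn', pow_mul, hθ, ← pow_mul, mul_comm u n']
    have := pow_eq_pow_of_modEq hu hζ
    simpa using this
  · obtain ⟨w, hw⟩ : a i * d ∣ n j := by
      have h2 : ∏ l ∈ Finset.Ioi j, a l ∣ n j := h.gcd_eq j ▸ Nat.gcd_dvd_left _ _
      refine dvd_trans ?_ h2
      rw [← hIci]
      refine Finset.prod_dvd_prod_of_subset _ _ _ fun l hl => ?_
      simp only [Finset.mem_Ici, Finset.mem_Ioi] at hl ⊢
      exact hj.trans_le hl
    rw [hw, pow_mul, h1, one_pow]

section closed

variable {K Λ U : Type*} [Field K] [CommRing Λ] [Algebra K Λ] [AddCommGroup U] [Module K U]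
  [FiniteDimensional K U]

lemma exists_good [Infinite K] {c : ℕ} (n : Fin c → ℕ) (e : ℕ) (he : 0 < e)
    (ψ : Λ →ₐ[K] Module.End K U) (L R : Fin c → Λ) :
    ∃ lam : K, ∀ η : K, η ^ e = 1 →
      finrank K (⨅ i, LinearMap.ker (ψ (L i - (lam * η) ^ n i • R i)) : Submodule K U) ≤
        finrank K (⨅ i, LinearMap.ker (ψ (L i - R i)) : Submodule K U) := by
  classical
  let T : Option (Fin c) → U →ₗ[K] (Fin c → U) := fun o => match o with
    | none => LinearMap.pi fun i => ψ (L i)
    | some j => LinearMap.single K (fun _ => U) j ∘ₗ ψ (R j)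
  let p : Option (Fin c) → K[X] := fun o => match o with
    | none => 1
    | some j => - X ^ n j
  have key : ∀ μ : K, LinearMap.ker (∑ o, (p o).eval μ • T o) =
      ⨅ i, LinearMap.ker (ψ (L i - μ ^ n i • R i)) := by
    intro μ
    rw [← LinearMap.ker_pi]
    congr 1
    ext u i
    simp [Fintype.sum_option, p, T, LinearMap.sum_apply, Finset.sum_apply, Pi.single_apply,
      sub_eq_add_neg]
  obtain ⟨q, hq0, hq⟩ := finite_bad T p
  set Q : K[X] := ∏ β ∈ q.roots.toFinset, (X ^ e - C (β ^ e)) with hQ
  have hQ0 : Q ≠ 0 := Finset.prod_ne_zero_iff.mpr fun β _ => X_pow_sub_C_ne_zero he _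
  obtain ⟨lam, hlam⟩ := Infinite.exists_notMem_finset Q.roots.toFinset
  refine ⟨lam, fun η hη => ?_⟩
  have h1 : q.eval (lam * η) ≠ 0 := by
    intro h0
    apply hlam
    rw [Multiset.mem_toFinset, mem_roots hQ0, IsRoot.def, hQ, eval_prod]
    refine Finset.prod_eq_zero (i := lam * η) ?_ ?_
    · rw [Multiset.mem_toFinset, mem_roots hq0]; exact h0
    · simp [mul_pow, hη]
  have h2 := hq _ h1
  rw [key, key] at h2
  have h3 : (⨅ i, LinearMap.ker (ψ (L i - (1 : K) ^ n i • R i)) : Submodule K U) =
      ⨅ i, LinearMap.ker (ψ (L i - R i)) := by simp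
  rwa [h3] at h2

/-- annihilator of a subspace -/
def annIdeal (ψ : Λ →ₐ[K] Module.End K U) (W : Submodule K U) : Ideal Λ where
  carrier := {f | ∀ w ∈ W, ψ f w = 0}
  add_mem' := fun {f g} hf hg w hw => by simp [hf w hw, hg w hw]
  zero_mem' := fun w _ => by simp
  smul_mem' := fun f g hg w hw => by simp [hg w hw]

theorem sb_closed [IsAlgClosed K] {c : ℕ} {a n : Fin c → ℕ} {m : Fin c → Fin c → ℕ}
    {γ : Fin c → K} (h : Tele a n m γ) (ψ : Λ →ₐ[K] Module.End K U) (L R : Fin c → Λ)
    (hL : ∀ i, L i ^ a i = γ i • ∏ j, L j ^ m i j) (hR : ∀ i, R i ^ a i = γ i • ∏ j, R j ^ m i j) :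
    finrank K U ≤ (∏ i, a i) * finrank K (⨅ i, LinearMap.ker (ψ (L i - R i)) : Submodule K U) := by
  classical
  obtain ⟨lam, hlam⟩ := exists_good n (∏ i, a i) (Finset.prod_pos fun j _ => h.a_pos j) ψ L R
  set G := finrank K (⨅ i, LinearMap.ker (ψ (L i - R i)) : Submodule K U) with hG
  let W : ℕ → K → Submodule K U := fun t η =>
    ⨅ (j : Fin c) (_ : j.val < t), LinearMap.ker (ψ (L j - (lam * η) ^ n j • R j))
  have hWinv : ∀ t η, ∀ f : Λ, ∀ w ∈ W t η, ψ f w ∈ W t η := by
    intro t η f w hw
    simp only [W, Submodule.mem_iInf, LinearMap.mem_ker] at hw ⊢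
    intro j hj
    rw [← Module.End.mul_apply, ← map_mul, mul_comm, map_mul, Module.End.mul_apply, hw j hj,
      map_zero]
  have main : ∀ s t : ℕ, t + s = c → ∀ η : K, η ^ (∏ i, a i) = 1 →
      finrank K (W t η) ≤ (∏ j ∈ Finset.univ.filter (fun j : Fin c => t ≤ j.val), a j) * G := by
    intro s
    induction s with
    | zero =>
      intro t ht η hη
      have h1 : W t η = ⨅ i, LinearMap.ker (ψ (L i - (lam * η) ^ n i • R i)) := by
        refine iInf_congr fun j => ?_
        rw [iInf_pos (by omega)]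
      have h2 : Finset.univ.filter (fun j : Fin c => t ≤ j.val) = ∅ := by
        ext j; simp; omega
      rw [h1, h2, Finset.prod_empty, one_mul]
      exact hlam η hη
    | succ s ih =>
      intro t ht η hη
      let i : Fin c := ⟨t, by omega⟩
      set μ := lam * η with hμ
      obtain ⟨S, hS1, hS2, hS3⟩ := exists_factor (K := K) (Λ := Λ) (a i) (h.a_pos i)
      have hann : L i ^ a i - (μ ^ n i • R i) ^ a i ∈ annIdeal ψ (W t η) := by
        rw [_root_.smul_pow, hL, hR]
        by_cases hγ : γ i = 0
        · simp [hγ]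
        · rw [smul_comm, ← smul_sub, Algebra.smul_def]
          apply Ideal.mul_mem_left
          rw [← pow_mul, mul_comm (n i), ← h.hom i hγ, ← Finset.prod_pow_eq_pow_sum,
            ← Finset.prod_smul, ← Ideal.Quotient.eq, map_prod, map_prod]
          refine Finset.prod_congr rfl fun j _ => ?_
          by_cases hj : j < i
          · rw [mul_comm, pow_mul, ← _root_.smul_pow, map_pow, map_pow]
            congr 1
            rw [Ideal.Quotient.eq]
            intro w hw
            simp only [W, Submodule.mem_iInf, LinearMap.mem_ker] at hw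
            exact hw j hj
          · simp [h.m_zero i j (not_lt.mp hj)]
      have hW : W t η = W t η ⊓ LinearMap.ker (ψ (S.map (fun ζ => L i - ζ • (μ ^ n i • R i))).prod) := by
        rw [← hS3]
        exact (inf_eq_left.mpr fun w hw => hann w hw).symm
      have hprod : (∏ j ∈ Finset.univ.filter (fun j : Fin c => t ≤ j.val), a j) =
          a i * ∏ j ∈ Finset.univ.filter (fun j : Fin c => t + 1 ≤ j.val), a j := by
        rw [← Finset.prod_insert (by simp [i])]
        congr 1
        ext j
        simp only [Finset.mem_filter, Finset.mem_univ, true_and, Finset.mem_insert, Fin.ext_iff, i]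
        omega
      rw [hW, hprod, mul_assoc]
      refine (finrank_ker_prod_le ψ (W t η) (hWinv t η) _
        ((∏ j ∈ Finset.univ.filter (fun j : Fin c => t + 1 ≤ j.val), a j) * G) ?_).trans ?_
      · intro f hf
        obtain ⟨ζ, hζ, rfl⟩ := Multiset.mem_map.mp hf
        obtain ⟨θ, hθ1, hθ2, hθ3⟩ := h.exists_theta i ζ (hS2 ζ hζ)
        refine le_trans (Submodule.finrank_mono ?_)
          (ih (t + 1) (by omega) (η * θ) (by rw [mul_pow, hη, hθ1, one_mul]))
        rintro w ⟨hw1, hw2⟩
        simp only [W, Submodule.mem_iInf, LinearMap.mem_ker, SetLike.mem_coe] at hw1 hw2 ⊢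
        intro j hj
        rw [← mul_assoc, ← hμ, mul_pow]
        rcases Nat.lt_succ_iff_lt_or_eq.mp hj with hj' | hj'
        · rw [hθ3 j hj', mul_one]; exact hw1 j hj'
        · have : j = i := Fin.ext hj'
          rw [this, hθ2, mul_comm, mul_smul]; exact hw2
      · rw [Multiset.card_map, hS1]
  have h0 := main c 0 (by simp) 1 (one_pow _)
  have h1 : W 0 1 = ⊤ := by simp [W]
  rw [h1, finrank_top] at h0
  simpa using h0

end closed

section general

variable {k Λ U : Type*} [Field k] [CommRing Λ] [Algebra k Λ] [AddCommGroup U] [Module k U]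
  [FiniteDimensional k U]

lemma finrank_ker_baseChange (K : Type*) [Field K] [Algebra k K] {V : Type*} [AddCommGroup V]
    [Module k V] (f : U →ₗ[k] V) :
    finrank K (LinearMap.ker (f.baseChange K)) = finrank k (LinearMap.ker f) := by
  have h1 : LinearMap.ker (f.baseChange K) =
      LinearMap.range ((LinearMap.ker f).subtype.baseChange K) := by
    have := Module.Flat.lTensor_exact K (f.exact_subtype_ker_map)
    ext x
    exact this x
  have h2 : Function.Injective ((LinearMap.ker f).subtype.baseChange K) :=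
    Module.Flat.lTensor_preserves_injective_linearMap _ (Submodule.injective_subtype _)
  rw [h1, LinearMap.finrank_range_of_inj h2, Module.finrank_baseChange]

lemma finrank_iInf_ker_baseChange (K : Type*) [Field K] [Algebra k K] {c : ℕ}
    (f : Fin c → Module.End k U) :
    finrank K (⨅ i, LinearMap.ker ((f i).baseChange K) : Submodule K (K ⊗[k] U)) =
      finrank k (⨅ i, LinearMap.ker (f i) : Submodule k U) := by
  classical
  rw [← LinearMap.ker_pi, ← LinearMap.ker_pi, ← finrank_ker_baseChange K (LinearMap.pi f)]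
  have : LinearMap.pi (fun i => (f i).baseChange K) =
      (TensorProduct.piRight k K K (fun _ : Fin c => U)).toLinearMap ∘ₗ
        (LinearMap.pi f).baseChange K := by
    ext u i
    simp
  rw [this, LinearEquiv.ker_comp]

theorem sb {c : ℕ} {a n : Fin c → ℕ} {m : Fin c → Fin c → ℕ}
    {γ : Fin c → k} (h : Tele a n m γ) (ψ : Λ →ₐ[k] Module.End k U) (L R : Fin c → Λ)
    (hL : ∀ i, L i ^ a i = γ i • ∏ j, L j ^ m i j) (hR : ∀ i, R i ^ a i = γ i • ∏ j, R j ^ m i j) :
    finrank k U ≤ (∏ i, a i) * finrank k (⨅ i, LinearMap.ker (ψ (L i - R i)) : Submodule k U) := by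
  let K := AlgebraicClosure k
  let ψ' : K ⊗[k] Λ →ₐ[K] Module.End K (K ⊗[k] U) :=
    Algebra.TensorProduct.lift (Algebra.ofId K _) ((Module.End.baseChangeHom k K U).comp ψ)
      (fun x y => Algebra.commute_algebraMap_left x _)
  have hψ' : ∀ f : Λ, ψ' (1 ⊗ₜ f) = (ψ f).baseChange K := by
    intro f
    simp [ψ', Module.End.baseChangeHom]
  have rel : ∀ L : Fin c → Λ, (∀ i, L i ^ a i = γ i • ∏ j, L j ^ m i j) →
      ∀ i, ((1 : K) ⊗ₜ[k] L i) ^ a i = algebraMap k K (γ i) • ∏ j, ((1 : K) ⊗ₜ[k] L j) ^ m i j := by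
    intro L hL i
    have := congrArg (Algebra.TensorProduct.includeRight (R := k) (A := K)) (hL i)
    rw [map_pow, map_smul, map_prod] at this
    simpa using this
  have := sb_closed (h.map (K := K)) ψ' (fun i => 1 ⊗ₜ L i) (fun i => 1 ⊗ₜ R i) (rel L hL) (rel R hR)
  have h3 : (⨅ i, LinearMap.ker (ψ' ((1 : K) ⊗ₜ[k] L i - 1 ⊗ₜ[k] R i)) : Submodule K _) =
      ⨅ i, LinearMap.ker ((ψ (L i - R i)).baseChange K) := by
    simp only [← TensorProduct.tmul_sub, hψ']
  rwa [h3, Module.finrank_baseChange, finrank_iInf_ker_baseChange] at this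

end general

end Pool.Agent.Lib.MP_9e3d42_al
end

-- part Pool.Agent.Lib.MP_9e3d42_al.Strict
section

/-! Modules over a telescopic Artinian algebra with small endomorphism ring are free. -/

open Module TensorProduct

namespace Pool.Agent.Lib.MP_9e3d42_al

/-- A finite-dimensional algebra with telescopic generators. -/
structure TeleAlg (k : Type*) [Field k] {A : Type*} [CommRing A] [Algebra k A] {c : ℕ}
    (a n : Fin c → ℕ) (m : Fin c → Fin c → ℕ) (γ : Fin c → k) (y : Fin c → A) : Prop where
  tele : Tele a n m γ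
  rel : ∀ i, y i ^ a i = γ i • ∏ j, y j ^ m i j
  gen : Algebra.adjoin k (Set.range y) = ⊤
  dim : ∏ i, a i ≤ finrank k A

variable {k A : Type*} [Field k] [CommRing A] [Algebra k A] {c : ℕ}
  {a n : Fin c → ℕ} {m : Fin c → Fin c → ℕ} {γ : Fin c → k} {y : Fin c → A}

lemma Tele.isNilpotent (h : Tele a n m γ) (rel : ∀ i, y i ^ a i = γ i • ∏ j, y j ^ m i j)
    (i : Fin c) : IsNilpotent (y i) := by
  classical
  induction i using WellFoundedLT.induction with
  | _ i ih =>
    refine IsNilpotent.of_pow (m := a i) ?_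
    rw [rel]
    by_cases hγ : γ i = 0
    · simp [hγ]
    · have h1 := h.hom i hγ
      have h2 : 0 < a i * n i := Nat.mul_pos (h.a_pos i) (h.n_pos i)
      obtain ⟨j, hj⟩ : ∃ j, m i j ≠ 0 := by
        by_contra! hcon
        rw [Finset.sum_eq_zero (fun j _ => by rw [hcon j, zero_mul])] at h1
        omega
      have hji : j < i := by
        by_contra hcon
        exact hj (h.m_zero i j (not_lt.mp hcon))
      apply IsNilpotent.smul
      rw [← Finset.mul_prod_erase _ _ (Finset.mem_univ j)]
      exact (Commute.all _ _).isNilpotent_mul_right ((ih j hji).pow_of_pos hj)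

lemma TeleAlg.exists_sub_mem (h : TeleAlg k a n m γ y) (b : A) :
    ∃ κ : k, b - algebraMap k A κ ∈ Ideal.span (Set.range y) := by
  have hb : b ∈ Algebra.adjoin k (Set.range y) := h.gen ▸ Algebra.mem_top
  induction hb using Algebra.adjoin_induction with
  | mem x hx => exact ⟨0, by simpa using Ideal.subset_span hx⟩
  | algebraMap r => exact ⟨r, by simp⟩
  | add x z _ _ hx hz =>
    obtain ⟨κ, hκ⟩ := hx
    obtain ⟨κ', hκ'⟩ := hz
    exact ⟨κ + κ', by convert Ideal.add_mem _ hκ hκ' using 1; simp; ring⟩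
  | mul x z _ _ hx hz =>
    obtain ⟨κ, hκ⟩ := hx
    obtain ⟨κ', hκ'⟩ := hz
    refine ⟨κ * κ', ?_⟩
    have := Ideal.add_mem _ (Ideal.mul_mem_right z _ hκ)
      (Ideal.mul_mem_left _ (algebraMap k A κ) hκ')
    convert this using 1; simp; ring

lemma TeleAlg.le_nilradical (h : TeleAlg k a n m γ y) :
    Ideal.span (Set.range y) ≤ nilradical A := by
  rw [Ideal.span_le]
  rintro _ ⟨i, rfl⟩
  exact h.tele.isNilpotent h.rel i

lemma TeleAlg.isNilpotent (h : TeleAlg k a n m γ y) : IsNilpotent (Ideal.span (Set.range y)) :=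
  (Ideal.FG.isNilpotent_iff_le_nilradical
    (Submodule.fg_span (Set.finite_range y))).mpr h.le_nilradical

lemma TeleAlg.nontrivial (h : TeleAlg k a n m γ y) : Nontrivial A :=
  Module.nontrivial_of_finrank_pos (R := k)
    (lt_of_lt_of_le (Finset.prod_pos fun i _ => h.tele.a_pos i) h.dim)

lemma exists_socle {I : Ideal A} (hI : IsNilpotent I) {X : Type*} [AddCommGroup X] [Module A X]
    (K : Submodule A X) (hK : K ≠ ⊥) : ∃ v ∈ K, v ≠ 0 ∧ ∀ b ∈ I, b • v = 0 := by
  obtain ⟨N, hN⟩ := hI
  have key : ∀ j : ℕ, ∀ K : Submodule A X, I ^ j • K = ⊥ → K ≠ ⊥ →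
      ∃ v ∈ K, v ≠ 0 ∧ ∀ b ∈ I, b • v = 0 := by
    intro j
    induction j with
    | zero => intro K h1 h2; simp at h1; exact absurd h1 h2
    | succ j ih =>
      intro K h1 h2
      by_cases h3 : I • K = ⊥
      · obtain ⟨v, hv, hv0⟩ := Submodule.exists_mem_ne_zero_of_ne_bot h2
        refine ⟨v, hv, hv0, fun b hb => ?_⟩
        have := Submodule.smul_mem_smul hb hv
        rwa [h3, Submodule.mem_bot] at this
      · obtain ⟨v, hv, h⟩ := ih (I • K) (by rw [← mul_smul, ← pow_succ, h1]) h3
        exact ⟨v, Submodule.smul_le_right hv, h⟩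
  exact key N K (by rw [hN]; simp) hK

/-- restriction of an action to an invariant subspace -/
def restrictHom {U : Type*} [AddCommGroup U] [Module k U] (ψ : A →ₐ[k] Module.End k U)
    (W : Submodule k U) (hW : ∀ f : A, ∀ w ∈ W, ψ f w ∈ W) : A →ₐ[k] Module.End k W where
  toFun f := (ψ f).restrict (hW f)
  map_one' := by ext w; simp
  map_mul' f g := by ext w; simp
  map_zero' := by ext w; simp
  map_add' f g := by ext w; simp
  commutes' r := by ext w; simp

lemma restrictHom_apply {U : Type*} [AddCommGroup U] [Module k U] (ψ : A →ₐ[k] Module.End k U)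
    (W : Submodule k U) (hW : ∀ f : A, ∀ w ∈ W, ψ f w ∈ W) (f : A) (w : W) :
    (restrictHom ψ W hW f w : U) = ψ f w := rfl

lemma TeleAlg.sb2 (h : TeleAlg k a n m γ y) {U : Type*} [AddCommGroup U] [Module k U]
    [FiniteDimensional k U] (lam rho : A →ₐ[k] Module.End k U)
    (hc : ∀ b b', Commute (lam b) (rho b')) (W : Submodule k U)
    (hl : ∀ f : A, ∀ w ∈ W, lam f w ∈ W) (hr : ∀ f : A, ∀ w ∈ W, rho f w ∈ W)
    (Z : Submodule k U) (hZ : ∀ w ∈ W, (∀ i, lam (y i) w = rho (y i) w) → w ∈ Z) :
    finrank k W ≤ finrank k A * finrank k Z := by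
  let ψ : A ⊗[k] A →ₐ[k] Module.End k W :=
    Algebra.TensorProduct.lift (restrictHom lam W hl) (restrictHom rho W hr) (fun b b' => by
      ext w
      have := congrArg (fun f : Module.End k U => f w) (hc b b').eq
      simpa [restrictHom_apply] using this)
  have h1 := sb h.tele ψ (fun i => y i ⊗ₜ 1) (fun i => 1 ⊗ₜ y i) (fun i => by
      have := congrArg (Algebra.TensorProduct.includeLeft (R := k) (S := k) (B := A)) (h.rel i)
      rw [map_pow, map_smul, map_prod] at this
      simpa using this) (fun i => by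
      have := congrArg (Algebra.TensorProduct.includeRight (R := k) (A := A)) (h.rel i)
      rw [map_pow, map_smul, map_prod] at this
      simpa using this)
  refine h1.trans (Nat.mul_le_mul h.dim ?_)
  rw [← Submodule.finrank_map_subtype_eq]
  apply Submodule.finrank_mono
  rintro _ ⟨w, hw, rfl⟩
  refine hZ w w.2 fun i => ?_
  simp only [SetLike.mem_coe, Submodule.mem_iInf, LinearMap.mem_ker] at hw
  have := congrArg Subtype.val (hw i)
  simpa [ψ, restrictHom_apply, sub_eq_zero] using this

section strict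

variable {N : Type*} [AddCommGroup N] [Module A N] [Module k N] [IsScalarTower k A N]

/-- right multiplication action -/
noncomputable def rightHom (k A N : Type*) [Field k] [CommRing A] [Algebra k A] [AddCommGroup N]
    [Module A N] [Module k N] [IsScalarTower k A N] :
    A →ₐ[k] Module.End k (Module.End k N) where
  toFun b := LinearMap.mulRight k (Algebra.lsmul k k N b)
  map_one' := by ext w; simp
  map_mul' f g := by ext w; simp [smul_smul, mul_comm]
  map_zero' := by ext w; simp
  map_add' f g := by ext w; simp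
  commutes' r := by ext w; simp

lemma TeleAlg.strict [FiniteDimensional k A] [FiniteDimensional k N] (h : TeleAlg k a n m γ y)
    (hE : finrank k A * finrank k (Module.End A N) ≤ finrank k N ^ 2)
    (v : N) (hv : v ∉ (Ideal.span (Set.range y) • ⊤ : Submodule A N)) (b₀ : A) (hb₀ : b₀ ≠ 0) :
    b₀ • v ≠ 0 := by
  intro hbv
  obtain ⟨ξ, hξ1, hξ2⟩ := Submodule.exists_dual_map_eq_bot_of_notMem
    (p := (Ideal.span (Set.range y) • ⊤ : Submodule A N).restrictScalars k) hv inferInstance
  have hξ : ∀ b ∈ Ideal.span (Set.range y), ∀ w : N, ξ (b • w) = 0 := by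
    intro b hb w
    have : ξ (b • w) ∈ Submodule.map ξ
        ((Ideal.span (Set.range y) • ⊤ : Submodule A N).restrictScalars k) :=
      Submodule.mem_map_of_mem ((Submodule.restrictScalars_mem k _ _).mpr
        (Submodule.smul_mem_smul hb Submodule.mem_top))
    rwa [hξ2, Submodule.mem_bot] at this
  let Θ : Module.End k N →ₗ[k] Module.Dual k A :=
    { toFun := fun φ => ξ ∘ₗ φ ∘ₗ (LinearMap.toSpanSingleton A N v).restrictScalars k
      map_add' := fun φ φ' => by ext; simp
      map_smul' := fun r φ => by ext; simp }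
  have hΘ : ∀ φ, φ ∈ LinearMap.ker Θ ↔ ∀ b : A, ξ (φ (b • v)) = 0 := by
    intro φ
    rw [LinearMap.mem_ker, LinearMap.ext_iff]
    simp [Θ]
  have hrange : finrank k (LinearMap.range Θ) < finrank k A := by
    rw [← Subspace.dual_finrank_eq (K := k) (V := A)]
    apply Submodule.finrank_lt
    obtain ⟨f, hf⟩ := Module.Projective.exists_dual_ne_zero k hb₀
    intro htop
    obtain ⟨φ, hφ⟩ : f ∈ LinearMap.range Θ := htop ▸ Submodule.mem_top
    apply hf
    rw [← hφ]
    simp [Θ, hbv]
  let E : Submodule k (Module.End k N) :=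
    LinearMap.range (LinearMap.restrictScalarsₗ k A N N k)
  have hEfin : finrank k E = finrank k (Module.End A N) :=
    LinearMap.finrank_range_of_inj (LinearMap.restrictScalars_injective k)
  have h1 := h.sb2 ((Algebra.lmul k (Module.End k N)).comp (Algebra.lsmul k k N)) (rightHom k A N)
    (fun b b' => by ext; simp [rightHom]) (LinearMap.ker Θ) (fun f φ hφ => by
      rw [hΘ] at hφ ⊢
      intro b
      obtain ⟨κ, hκ⟩ := h.exists_sub_mem f
      have := hξ _ hκ (φ (b • v))
      simpa [sub_smul, hφ b] using this) (fun f φ hφ => by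
      rw [hΘ] at hφ ⊢
      intro b
      simpa [rightHom, smul_smul] using hφ (f * b)) (LinearMap.ker Θ ⊓ E) (fun φ hφ hc => by
      refine ⟨hφ, ?_⟩
      have hcomm : ∀ b : A, ∀ w, φ (b • w) = b • φ w := by
        intro b
        have hb : b ∈ Algebra.adjoin k (Set.range y) := h.gen ▸ Algebra.mem_top
        induction hb using Algebra.adjoin_induction with
        | mem x hx =>
          obtain ⟨i, rfl⟩ := hx
          intro w
          have := congrArg (fun f : Module.End k N => f w) (hc i)
          simpa [rightHom] using this.symm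
        | algebraMap r => intro w; simp
        | add x z _ _ hx hz => intro w; simp [add_smul, hx, hz]
        | mul x z _ _ hx hz => intro w; simp [mul_smul, hx, hz]
      exact ⟨⟨φ.toAddHom, hcomm⟩, rfl⟩)
  have h2 : finrank k (LinearMap.ker Θ ⊓ E : Submodule k _) < finrank k E := by
    apply Submodule.finrank_lt_finrank_of_lt
    refine lt_of_le_of_ne inf_le_right fun heq => ?_
    have : (1 : Module.End k N) ∈ E := ⟨1, rfl⟩
    rw [← heq] at this
    have := (hΘ 1).mp this.1 1
    exact hξ1 (by simpa using this)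
  have h3 := LinearMap.finrank_range_add_finrank_ker Θ
  rw [Module.finrank_linearMap] at h3
  rw [hEfin] at h2
  have h4 : finrank k A * (finrank k (LinearMap.ker Θ ⊓ E : Submodule k _) + 1) ≤
      finrank k A * finrank k (Module.End A N) := Nat.mul_le_mul_left _ h2
  nlinarith

end strict

/-- the dual module of `A` -/
def Omega (k A : Type*) [Field k] [CommRing A] [Algebra k A] := Module.Dual k A

noncomputable instance omegaGrp : AddCommGroup (Omega k A) :=
  inferInstanceAs (AddCommGroup (Module.Dual k A))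

noncomputable instance omegaModK : Module k (Omega k A) :=
  inferInstanceAs (Module k (Module.Dual k A))

/-- underlying functional -/
def Omega.fn (f : Omega k A) : Module.Dual k A := f

noncomputable instance omegaModA : Module A (Omega k A) where
  smul b f := (f.fn ∘ₗ LinearMap.mulLeft k b : Module.Dual k A)
  one_smul f := by
    change (f.fn ∘ₗ LinearMap.mulLeft k 1 : Module.Dual k A) = f.fn
    ext; simp
  mul_smul b b' f := by
    change (f.fn ∘ₗ LinearMap.mulLeft k (b * b') : Module.Dual k A) =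
      (f.fn ∘ₗ LinearMap.mulLeft k b') ∘ₗ LinearMap.mulLeft k b
    ext; simp [mul_left_comm]
  smul_zero b := by
    change ((0 : Module.Dual k A) ∘ₗ LinearMap.mulLeft k b : Module.Dual k A) = 0
    ext; simp
  smul_add b f g := by
    change ((f.fn + g.fn) ∘ₗ LinearMap.mulLeft k b : Module.Dual k A) =
      f.fn ∘ₗ LinearMap.mulLeft k b + g.fn ∘ₗ LinearMap.mulLeft k b
    ext; simp
  add_smul b b' f := by
    change (f.fn ∘ₗ LinearMap.mulLeft k (b + b') : Module.Dual k A) =
      f.fn ∘ₗ LinearMap.mulLeft k b + f.fn ∘ₗ LinearMap.mulLeft k b'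
    ext; simp [add_mul]
  zero_smul f := by
    change (f.fn ∘ₗ LinearMap.mulLeft k 0 : Module.Dual k A) = 0
    ext; simp

lemma Omega.smul_fn (b : A) (f : Omega k A) (x : A) : (b • f).fn x = f.fn (b * x) := rfl

lemma Omega.ext' {f g : Omega k A} (h : ∀ x, f.fn x = g.fn x) : f = g :=
  LinearMap.ext h

instance omegaTower : IsScalarTower k A (Omega k A) where
  smul_assoc r b f := Omega.ext' fun x => by
    change f.fn ((r • b) * x) = r • f.fn (b * x)
    simp

instance omegaFin [FiniteDimensional k A] : FiniteDimensional k (Omega k A) :=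
  inferInstanceAs (FiniteDimensional k (Module.Dual k A))

lemma TeleAlg.frobenius [FiniteDimensional k A] (h : TeleAlg k a n m γ y) :
    ∃ τ : Module.Dual k A, ∀ b : A, (∀ x, τ (b * x) = 0) → b = 0 := by
  have := h.nontrivial
  have hdim : finrank k (Omega k A) = finrank k A := Subspace.dual_finrank_eq
  let J : Module.End A (Omega k A) →ₗ[k] Module.Dual k (Omega k A) :=
    { toFun := fun φ =>
        { toFun := fun f => (φ f).fn 1
          map_add' := fun f g => by rw [map_add]; rfl
          map_smul' := fun r f => by rw [LinearMap.map_smul_of_tower]; rfl }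
      map_add' := fun φ φ' => rfl
      map_smul' := fun r φ => rfl }
  have hJ : Function.Injective J := by
    rw [injective_iff_map_eq_zero]
    intro φ hφ
    ext f
    refine Omega.ext' fun x => ?_
    have : (φ (x • f)).fn 1 = 0 := LinearMap.congr_fun hφ (x • f)
    rw [map_smul, Omega.smul_fn, mul_one] at this
    exact this
  have hE : finrank k A * finrank k (Module.End A (Omega k A)) ≤ finrank k (Omega k A) ^ 2 := by
    have := LinearMap.finrank_le_finrank_of_injective hJ
    rw [Subspace.dual_finrank_eq, hdim] at this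
    rw [hdim, pow_two]
    exact Nat.mul_le_mul_left _ this
  obtain ⟨s, -, hs0, hs⟩ := exists_socle h.isNilpotent (⊤ : Submodule A A) top_ne_bot
  obtain ⟨τ, hτ⟩ := Module.Projective.exists_dual_ne_zero k hs0
  have hv : (τ : Omega k A) ∉ (Ideal.span (Set.range y) • ⊤ : Submodule A (Omega k A)) := by
    intro hmem
    have : ∀ f ∈ (Ideal.span (Set.range y) • ⊤ : Submodule A (Omega k A)), f.fn s = 0 := by
      intro f hf
      refine Submodule.smul_induction_on hf (fun b hb g _ => ?_) (fun f g hf hg => ?_)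
      · rw [Omega.smul_fn, ← smul_eq_mul, hs b hb, map_zero]
      · change f.fn s + g.fn s = 0
        rw [hf, hg, add_zero]
    exact hτ (this _ hmem)
  refine ⟨τ, fun b hb => ?_⟩
  by_contra hb0
  exact h.strict hE (τ : Omega k A) hv b hb0 (Omega.ext' hb)

theorem TeleAlg.free [FiniteDimensional k A] (h : TeleAlg k a n m γ y)
    {N : Type*} [AddCommGroup N] [Module A N] [Module k N] [IsScalarTower k A N]
    [FiniteDimensional k N]
    (hE : finrank k A * finrank k (Module.End A N) ≤ finrank k N ^ 2) : Module.Free A N := by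
  classical
  obtain ⟨τ, hτ⟩ := h.frobenius
  set I := Ideal.span (Set.range y) with hI
  have : Module.Finite A N := Module.Finite.of_restrictScalars_finite k A N
  let b := Module.finBasis k (N ⧸ (I • ⊤ : Submodule A N))
  choose v hv using fun i => Submodule.mkQ_surjective (I • ⊤ : Submodule A N) (b i)
  let F := Fintype.linearCombination A v
  have hsurj : Function.Surjective F := by
    rw [← LinearMap.range_eq_top, eq_top_iff]
    refine Submodule.le_of_le_smul_of_le_jacobson_bot (I := I) Module.Finite.fg_top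
      (h.le_nilradical.trans Ideal.radical_le_jacobson) fun w _ => ?_
    have h1 : w - ∑ i, b.repr (Submodule.Quotient.mk w) i • v i ∈ (I • ⊤ : Submodule A N) := by
      rw [← Submodule.Quotient.eq, ← Submodule.mkQ_apply _ (∑ i, _), map_sum]
      simp only [LinearMap.map_smul_of_tower, hv]
      exact (b.sum_repr _).symm
    have h2 : ∑ i, b.repr (Submodule.Quotient.mk w) i • v i ∈ LinearMap.range F :=
      ⟨fun i => algebraMap k A (b.repr (Submodule.Quotient.mk w) i), by
        simp [F, Fintype.linearCombination_apply]⟩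
    have := Submodule.add_mem_sup h2 h1
    simpa using this
  have hinj : Function.Injective F := by
    rw [← LinearMap.ker_eq_bot]
    by_contra hK
    obtain ⟨w, hw, hw0, hwI⟩ := exists_socle h.isNilpotent _ hK
    obtain ⟨i₀, hi₀⟩ := Function.ne_iff.mp hw0
    have hsoc : ∀ s : A, (∀ x ∈ I, x * s = 0) → τ s = 0 → s = 0 := by
      intro s hs h0
      refine hτ s fun x => ?_
      obtain ⟨κ, hκ⟩ := h.exists_sub_mem x
      have h1 := hs _ hκ
      have h2 : s * x = κ • s := by
        rw [Algebra.smul_def]; linear_combination h1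
      rw [h2, map_smul, h0, smul_zero]
    have hwi : ∀ i, ∀ x ∈ I, x * w i = 0 := fun i x hx => congrFun (hwI x hx) i
    have hτs : τ (w i₀) ≠ 0 := fun h0 => hi₀ (hsoc _ (hwi i₀) h0)
    have hform : ∀ i, w i = (τ (w i) / τ (w i₀)) • w i₀ := by
      intro i
      rw [← sub_eq_zero]
      refine hsoc _ (fun x hx => ?_) ?_
      · rw [mul_sub, mul_smul_comm, hwi i x hx, hwi i₀ x hx]; simp
      · rw [map_sub, map_smul, smul_eq_mul, div_mul_cancel₀ _ hτs, sub_self]
    have h1 : w i₀ • (∑ i, (τ (w i) / τ (w i₀)) • v i) = 0 := by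
      rw [LinearMap.mem_ker, Fintype.linearCombination_apply] at hw
      rw [← hw, Finset.smul_sum]
      refine Finset.sum_congr rfl fun i _ => ?_
      conv_rhs => rw [hform i]
      rw [smul_comm, smul_assoc]
    have h2 : (∑ i, (τ (w i) / τ (w i₀)) • v i) ∈ (I • ⊤ : Submodule A N) := by
      by_contra hcon
      exact h.strict hE _ hcon _ hi₀ h1
    rw [← Submodule.Quotient.mk_eq_zero, ← Submodule.mkQ_apply, map_sum] at h2
    simp only [LinearMap.map_smul_of_tower, hv] at h2
    have := Fintype.linearIndependent_iff.mp b.linearIndependent _ h2 i₀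
    exact one_ne_zero (by rwa [div_self hτs] at this)
  exact Module.Free.of_equiv (LinearEquiv.ofBijective F ⟨hinj, hsurj⟩)

end Pool.Agent.Lib.MP_9e3d42_al
end

-- part Pool.Agent.Lib.MP_9e3d42_al.Len
section

/-! Length formula for reductions of torsion-free modules, and the endomorphism bound. -/

open Module TensorProduct Pointwise

namespace Pool.Agent.Lib.MP_9e3d42_al

section hom

variable {k A : Type*} [Field k] [CommRing A] [Algebra k A] [FiniteDimensional k A]

lemma finrank_end_le (τ : Module.Dual k A) (hτ : ∀ b : A, (∀ x, τ (b * x) = 0) → b = 0)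
    {N N' : Type*} [AddCommGroup N] [Module A N] [Module k N] [IsScalarTower k A N]
    [FiniteDimensional k N] [AddCommGroup N'] [Module A N'] [Module k N'] [IsScalarTower k A N']
    [FiniteDimensional k N'] (hdim : finrank k N' = finrank k N)
    (β : N' →ₗ[A] Module.Dual A N) (hβ : Function.Injective β) :
    finrank k (Module.End A N) ≤ finrank k (N ⊗[A] N') := by
  have : Module.Finite A N := Module.Finite.of_restrictScalars_finite k A N
  have : Module.Finite A N' := Module.Finite.of_restrictScalars_finite k A N'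
  have : FiniteDimensional k (N ⊗[A] N') := Module.Finite.trans A _
  let B : N' →ₗ[k] Module.Dual k N :=
    { toFun := fun w => τ ∘ₗ (β w).restrictScalars k
      map_add' := fun w w' => by ext; simp
      map_smul' := fun r w => by ext; simp }
  have hB : Function.Injective B := by
    rw [injective_iff_map_eq_zero]
    intro w hw
    apply hβ
    rw [map_zero]
    ext v
    refine hτ _ fun x => ?_
    have := LinearMap.congr_fun hw (x • v)
    simpa [B, mul_comm] using this
  have hBs : Function.Surjective B :=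
    (LinearMap.injective_iff_surjective_of_finrank_eq_finrank
      (by rw [hdim, Subspace.dual_finrank_eq])).mp hB
  let J : Module.End A N →ₗ[k] Module.Dual k (N ⊗[A] N') :=
    { toFun := fun φ => τ ∘ₗ (TensorProduct.lift (β.flip ∘ₗ φ)).restrictScalars k
      map_add' := fun φ φ' => by
        apply LinearMap.ext
        intro t
        induction t using TensorProduct.induction_on with
        | zero => simp
        | tmul v w => simp
        | add s t hs ht => simp only [map_add, hs, ht]
      map_smul' := fun r φ => by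
        apply LinearMap.ext
        intro t
        induction t using TensorProduct.induction_on with
        | zero => simp
        | tmul v w => simp
        | add s t hs ht => simp only [map_add, hs, ht] }
  have hJ : Function.Injective J := by
    rw [injective_iff_map_eq_zero]
    intro φ hφ
    ext v
    rw [LinearMap.zero_apply, ← Module.forall_dual_apply_eq_zero_iff k]
    intro ξ
    obtain ⟨w, rfl⟩ := hBs ξ
    have := LinearMap.congr_fun hφ (v ⊗ₜ w)
    simpa [J, B] using this
  have := LinearMap.finrank_le_finrank_of_injective hJ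
  rwa [Subspace.dual_finrank_eq] at this

end hom

section isog

variable (R : Type*) [CommRing R] [IsDomain R]

/-- `X` and `Y` become isomorphic over the fraction field. -/
def Isog (X Y : Type*) [AddCommGroup X] [Module R X] [AddCommGroup Y] [Module R Y] : Prop :=
  ∃ (f : X →ₗ[R] Y) (g : Y →ₗ[R] X) (c : R), c ≠ 0 ∧ f ∘ₗ g = c • LinearMap.id ∧
    g ∘ₗ f = c • LinearMap.id

variable {R} {X Y X' Y' : Type*} [AddCommGroup X] [Module R X] [AddCommGroup Y] [Module R Y]
  [AddCommGroup X'] [Module R X'] [AddCommGroup Y'] [Module R Y']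

omit [IsDomain R] in
lemma Isog.dual (h : Isog R X Y) : Isog R (Module.Dual R X) (Module.Dual R Y) := by
  obtain ⟨f, g, c, hc, h1, h2⟩ := h
  refine ⟨g.dualMap, f.dualMap, c, hc, ?_, ?_⟩
  · rw [LinearMap.dualMap_comp_dualMap, h1]; ext; simp
  · rw [LinearMap.dualMap_comp_dualMap, h2]; ext; simp

lemma Isog.tensor (h : Isog R X Y) (h' : Isog R X' Y') : Isog R (X ⊗[R] X') (Y ⊗[R] Y') := by
  obtain ⟨f, g, c, hc, h1, h2⟩ := h
  obtain ⟨f', g', c', hc', h1', h2'⟩ := h'
  refine ⟨TensorProduct.map f f', TensorProduct.map g g', c * c', mul_ne_zero hc hc', ?_, ?_⟩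
  · rw [← TensorProduct.map_comp, h1, h1']; ext; simp [smul_tmul', smul_smul, mul_comm]
  · rw [← TensorProduct.map_comp, h2, h2']; ext; simp [smul_tmul', smul_smul, mul_comm]

lemma exists_isog (M : Type*) [AddCommGroup M] [Module R M] [Module.Finite R M] :
    Isog R (Fin (finrank R M) → R) M := by
  obtain ⟨v, hv⟩ := exists_linearIndependent_of_le_finrank (le_refl (finrank R M))
  let ι := Fintype.linearCombination R v
  have hι : Function.Injective ι := hv.fintypeLinearCombination_injective
  have h1 := Submodule.finrank_quotient_add_finrank (LinearMap.range ι)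
  rw [LinearMap.finrank_range_of_inj hι, Module.finrank_fin_fun] at h1
  have h2 : Module.IsTorsion R (M ⧸ LinearMap.range ι) :=
    Module.finrank_eq_zero_iff_isTorsion.mp (by omega)
  obtain ⟨c, hc1, hc2⟩ := Submodule.annihilator_top_inter_nonZeroDivisors h2
  have hc : ∀ w : M, (c • LinearMap.id : M →ₗ[R] M) w ∈ LinearMap.range ι := by
    intro w
    have := Submodule.mem_annihilator.mp hc1 (Submodule.Quotient.mk w) Submodule.mem_top
    rwa [← Submodule.Quotient.mk_smul, Submodule.Quotient.mk_eq_zero] at this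
  let j : M →ₗ[R] (Fin (finrank R M) → R) :=
    (LinearEquiv.ofInjective ι hι).symm.toLinearMap ∘ₗ LinearMap.codRestrict _ _ hc
  have hj : ∀ w, ι (j w) = c • w := by
    intro w
    simp [j]
  refine ⟨ι, j, c, nonZeroDivisors.ne_zero hc2, ?_, ?_⟩
  · ext w; simp [hj]
  · apply LinearMap.ext
    intro w
    apply hι
    simp [hj]

lemma length_ne_top_of_smul [IsNoetherianRing R] [Ring.KrullDimLE 1 R] [Module.Finite R Y]
    (P : Submodule R Y) (c : R) (hc : c ≠ 0) (h : ∀ w, c • w ∈ P) : length R (Y ⧸ P) ≠ ⊤ := by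
  have h1 := isFiniteLength_quotient_span_singleton R (mem_nonZeroDivisors_of_ne_zero hc)
  rw [isFiniteLength_iff_isNoetherian_isArtinian] at h1
  have h2 : IsArtinianRing (R ⧸ Ideal.span {c}) := isArtinian_of_tower R h1.2
  have : Module.Finite (R ⧸ Ideal.span {c}) (QuotSMulTop c Y) :=
    Module.Finite.of_restrictScalars_finite R _ _
  have h3 : length R (QuotSMulTop c Y) ≠ ⊤ := by
    rw [Module.length_eq_of_surjective (R := R ⧸ Ideal.span {c}) Ideal.Quotient.mk_surjective]
    exact Module.length_ne_top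
  have hle : (c • ⊤ : Submodule R Y) ≤ P := by
    rintro _ ⟨w, -, rfl⟩
    exact h w
  exact ne_top_of_le_ne_top h3
    (Module.length_le_of_surjective (Submodule.factor hle) (Submodule.factor_surjective hle))

lemma Isog.length_eq [IsNoetherianRing R] [Ring.KrullDimLE 1 R] [Module.Finite R Y]
    [IsTorsionFree R X] [IsTorsionFree R Y] (h : Isog R X Y) {x : R} (hx : x ≠ 0) :
    length R (QuotSMulTop x X) = length R (QuotSMulTop x Y) := by
  obtain ⟨f, g, c, hc, h1, h2⟩ := h
  have hf : Function.Injective f := by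
    rw [injective_iff_map_eq_zero]
    intro v hv
    have := LinearMap.congr_fun h2 v
    simpa [hv, hc] using this.symm
  set P := LinearMap.range f with hP
  have hfin : length R (Y ⧸ P) ≠ ⊤ := length_ne_top_of_smul P c hc fun w =>
    ⟨g w, by simpa using LinearMap.congr_fun h1 w⟩
  have hle1 : (x • P : Submodule R Y) ≤ P := Submodule.smul_le_self_of_tower x P
  have hle2 : (x • P : Submodule R Y) ≤ x • ⊤ := by
    rintro _ ⟨w, -, rfl⟩
    exact ⟨w, trivial, rfl⟩
  have e1 : length R (Y ⧸ (x • P : Submodule R Y)) =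
      length R (QuotSMulTop x X) + length R (Y ⧸ P) := by
    refine Module.length_eq_add_of_exact
      (Submodule.mapQ (x • ⊤) (x • P) f ?_) (Submodule.factor hle1) ?_
      (Submodule.factor_surjective hle1) ?_
    · rintro _ ⟨w, -, rfl⟩
      exact ⟨f w, ⟨w, rfl⟩, by simp⟩
    · rw [injective_iff_map_eq_zero]
      intro z hz
      obtain ⟨z, rfl⟩ := Submodule.Quotient.mk_surjective _ z
      rw [Submodule.mapQ_apply, Submodule.Quotient.mk_eq_zero] at hz
      obtain ⟨_, ⟨w, rfl⟩, hw⟩ := hz
      rw [Submodule.Quotient.mk_eq_zero]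
      exact ⟨w, trivial, hf (by simpa using hw)⟩
    · intro z
      obtain ⟨z, rfl⟩ := Submodule.Quotient.mk_surjective _ z
      constructor
      · intro hz
        have hz' : z ∈ P := by simpa using hz
        obtain ⟨w, rfl⟩ := hz'
        exact ⟨Submodule.Quotient.mk w, rfl⟩
      · rintro ⟨w, hw⟩
        obtain ⟨w, rfl⟩ := Submodule.Quotient.mk_surjective _ w
        rw [← hw]
        simp [hP]
  have e2 : length R (Y ⧸ (x • P : Submodule R Y)) =
      length R (Y ⧸ P) + length R (QuotSMulTop x Y) := by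
    refine Module.length_eq_add_of_exact
      (Submodule.mapQ P (x • P) (x • LinearMap.id) ?_) (Submodule.factor hle2) ?_
      (Submodule.factor_surjective hle2) ?_
    · intro w hw
      exact ⟨w, hw, rfl⟩
    · rw [injective_iff_map_eq_zero]
      intro z hz
      obtain ⟨z, rfl⟩ := Submodule.Quotient.mk_surjective _ z
      rw [Submodule.mapQ_apply, Submodule.Quotient.mk_eq_zero] at hz
      obtain ⟨w, hw, hw'⟩ := hz
      rw [Submodule.Quotient.mk_eq_zero]
      have : w = z := smul_right_injective Y hx (by simpa using hw')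
      exact this ▸ hw
    · intro z
      obtain ⟨z, rfl⟩ := Submodule.Quotient.mk_surjective _ z
      constructor
      · intro hz
        have hz' : z ∈ (x • ⊤ : Submodule R Y) := by simpa using hz
        obtain ⟨w, -, rfl⟩ := hz'
        exact ⟨Submodule.Quotient.mk w, rfl⟩
      · rintro ⟨w, hw⟩
        obtain ⟨w, rfl⟩ := Submodule.Quotient.mk_surjective _ w
        rw [← hw]
        have : x • w ∈ (x • ⊤ : Submodule R Y) := ⟨w, trivial, rfl⟩
        exact (Submodule.Quotient.mk_eq_zero _).mpr this
  rw [e1, add_comm] at e2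
  exact WithTop.add_left_cancel hfin e2

end isog

end Pool.Agent.Lib.MP_9e3d42_al
end

-- part Pool.Agent.Lib.MP_9e3d42_al.Model
section

/-! The quotient of the polynomial ring by telescopic relations has the expected dimension. -/

open Module Polynomial

namespace Pool.Agent.Lib.MP_9e3d42_al

universe u

lemma exists_model (k : Type u) [Field k] (c : ℕ) :
    ∀ (a : Fin c → ℕ) (m : Fin c → Fin c → ℕ) (γ : Fin c → k), (∀ i, 0 < a i) →
      (∀ i j, i ≤ j → m i j = 0) →
      ∃ (B : Type u) (_ : CommRing B) (_ : Algebra k B) (y : Fin c → B),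
        (∀ i, y i ^ a i = γ i • ∏ j, y j ^ m i j) ∧ Algebra.adjoin k (Set.range y) = ⊤ ∧
        Module.Finite k B ∧ finrank k B = ∏ i, a i := by
  induction c with
  | zero =>
    intro a m γ _ _
    refine ⟨k, inferInstance, inferInstance, Fin.elim0, fun i => i.elim0, ?_, inferInstance,
      by simp⟩
    exact Subsingleton.elim _ _
  | succ c ih =>
    intro a m γ ha hm
    obtain ⟨B, _, _, y, h1, h2, h3, h4⟩ := ih (fun i => a i.castSucc)
      (fun i j => m i.castSucc j.castSucc) (fun i => γ i.castSucc) (fun i => ha _)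
      (fun i j hij => hm _ _ (Fin.castSucc_le_castSucc_iff.mpr hij))
    have : Nontrivial B := Module.nontrivial_of_finrank_pos (R := k)
      (h4 ▸ Finset.prod_pos fun i _ => ha _)
    set b : B := γ (Fin.last c) • ∏ j, y j ^ m (Fin.last c) j.castSucc with hb
    set p : B[X] := X ^ a (Fin.last c) - C b with hp
    have hmon : p.Monic := monic_X_pow_sub_C b (ha _).ne'
    let pb := AdjoinRoot.powerBasis' hmon
    have : Module.Free B (AdjoinRoot p) := Module.Free.of_basis pb.basis
    have : Module.Finite B (AdjoinRoot p) := pb.finite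
    refine ⟨AdjoinRoot p, inferInstance, inferInstance,
      Fin.snoc (α := fun _ => AdjoinRoot p) (fun i => algebraMap B _ (y i)) (AdjoinRoot.root p),
      ?_, ?_, Module.Finite.trans B _, ?_⟩
    · intro i
      have hs : ∀ (r : k) (f : Fin c → ℕ), algebraMap B (AdjoinRoot p) (r • ∏ j, y j ^ f j) =
          r • ∏ j, algebraMap B (AdjoinRoot p) (y j) ^ f j := by
        intro r f
        rw [Algebra.smul_def, Algebra.smul_def, map_mul, map_prod,
          ← IsScalarTower.algebraMap_apply]
        simp only [map_pow]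
      rw [Fin.prod_univ_castSucc, hm i (Fin.last c) (Fin.le_last i), pow_zero, mul_one]
      simp only [Fin.snoc_castSucc]
      induction i using Fin.lastCases with
      | last =>
        rw [Fin.snoc_last]
        have h0 : AdjoinRoot.mk p (X ^ a (Fin.last c) - C b) = 0 := AdjoinRoot.mk_self
        rw [map_sub, map_pow, AdjoinRoot.mk_X, AdjoinRoot.mk_C, sub_eq_zero] at h0
        rw [h0, ← AdjoinRoot.algebraMap_eq]
        exact hs _ _
      | cast i =>
        rw [Fin.snoc_castSucc, ← map_pow, h1]
        exact hs _ _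
    · rw [eq_top_iff]
      set S := Algebra.adjoin k (Set.range (Fin.snoc (α := fun _ => AdjoinRoot p)
        (fun i => algebraMap B _ (y i)) (AdjoinRoot.root p))) with hS
      have hB : ∀ z : B, algebraMap B (AdjoinRoot p) z ∈ S := by
        intro z
        have hz : z ∈ Algebra.adjoin k (Set.range y) := h2 ▸ Algebra.mem_top
        induction hz using Algebra.adjoin_induction with
        | mem x hx =>
          obtain ⟨i, rfl⟩ := hx
          exact Algebra.subset_adjoin ⟨i.castSucc, by simp⟩
        | algebraMap r => rw [← IsScalarTower.algebraMap_apply]; exact S.algebraMap_mem r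
        | add x z _ _ hx hz => rw [map_add]; exact S.add_mem hx hz
        | mul x z _ _ hx hz => rw [map_mul]; exact S.mul_mem hx hz
      have hroot : AdjoinRoot.root p ∈ S := Algebra.subset_adjoin ⟨Fin.last c, by simp⟩
      rintro z -
      induction z using AdjoinRoot.induction_on with
      | ih q =>
        induction q using Polynomial.induction_on' with
        | add q r hq hr => rw [map_add]; exact S.add_mem hq hr
        | monomial n z =>
          rw [← C_mul_X_pow_eq_monomial, map_mul, map_pow, AdjoinRoot.mk_X, AdjoinRoot.mk_C]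
          exact S.mul_mem (hB z) (S.pow_mem hroot n)
    · rw [← Module.finrank_mul_finrank k B (AdjoinRoot p), h4, pb.finrank,
        Fin.prod_univ_castSucc]
      congr 1
      simp [pb, hp]

variable {k : Type u} [Field k] {c : ℕ} {a n : Fin c → ℕ} {m : Fin c → Fin c → ℕ}
  {γ : Fin c → k}

lemma Tele.finite {A : Type*} [CommRing A] [Algebra k A] {y : Fin c → A} (h : Tele a n m γ)
    (rel : ∀ i, y i ^ a i = γ i • ∏ j, y j ^ m i j) (gen : Algebra.adjoin k (Set.range y) = ⊤) :
    Module.Finite k A := by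
  have h1 := Algebra.finite_adjoin_of_finite_of_isIntegral (R := k) (Set.finite_range y) (by
    rintro _ ⟨i, rfl⟩
    obtain ⟨N, hN⟩ := h.isNilpotent rel i
    exact ⟨X ^ N, monic_X_pow N, by simpa using hN⟩)
  rw [gen] at h1
  exact Module.Finite.equiv (Subalgebra.topEquiv (R := k) (A := A)).toLinearEquiv

/-- a `k`-algebra isomorphic to the telescopic quotient is a telescopic algebra -/
lemma Tele.teleAlg (h : Tele a n m γ) {A : Type*} [CommRing A] [Algebra k A]
    (φ : (MvPolynomial (Fin c) k ⧸ Ideal.span (Set.range fun i =>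
      (MvPolynomial.X i ^ a i - MvPolynomial.C (γ i) * ∏ j, MvPolynomial.X j ^ m i j :
        MvPolynomial (Fin c) k))) ≃ₐ[k] A) :
    ∃ y : Fin c → A, TeleAlg k a n m γ y ∧ Module.Finite k A := by
  set I := Ideal.span (Set.range fun i =>
      (MvPolynomial.X i ^ a i - MvPolynomial.C (γ i) * ∏ j, MvPolynomial.X j ^ m i j :
        MvPolynomial (Fin c) k)) with hI
  let π : MvPolynomial (Fin c) k →ₐ[k] A := φ.toAlgHom.comp (Ideal.Quotient.mkₐ k I)
  have hπ : Function.Surjective π := φ.surjective.comp (Ideal.Quotient.mkₐ_surjective k I)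
  have rel : ∀ i, π (MvPolynomial.X i) ^ a i = γ i • ∏ j, π (MvPolynomial.X j) ^ m i j := by
    intro i
    have : π (MvPolynomial.X i ^ a i - MvPolynomial.C (γ i) * ∏ j, MvPolynomial.X j ^ m i j)
        = 0 := by
      have h0 : Ideal.Quotient.mkₐ k I (MvPolynomial.X i ^ a i -
          MvPolynomial.C (γ i) * ∏ j, MvPolynomial.X j ^ m i j) = 0 :=
        Ideal.Quotient.eq_zero_iff_mem.mpr (Ideal.subset_span ⟨i, rfl⟩)
      simp only [π, AlgHom.comp_apply, h0, map_zero]
    rw [map_sub, sub_eq_zero, map_pow, map_mul, map_prod, MvPolynomial.algHom_C] at this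
    simpa [Algebra.smul_def] using this
  have gen : Algebra.adjoin k (Set.range fun i => π (MvPolynomial.X i)) = ⊤ := by
    rw [Algebra.adjoin_range_eq_range_aeval, AlgHom.range_eq_top]
    have : MvPolynomial.aeval (fun i => π (MvPolynomial.X i)) = π := by ext i; simp
    rw [this]; exact hπ
  have hfin := h.finite rel gen
  refine ⟨fun i => π (MvPolynomial.X i), ⟨h, rel, gen, ?_⟩, hfin⟩
  obtain ⟨B, _, _, y, h1, h2, h3, h4⟩ := exists_model k c a m γ h.a_pos h.m_zero
  let ρ : (MvPolynomial (Fin c) k ⧸ I) →ₐ[k] B :=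
    Ideal.Quotient.liftₐ I (MvPolynomial.aeval y) (fun f hf => by
      refine (Ideal.span_le (I := RingHom.ker (MvPolynomial.aeval (R := k) y))).mpr ?_ hf
      rintro _ ⟨i, rfl⟩
      simp [RingHom.mem_ker, h1, Algebra.smul_def])
  have hρ : Function.Surjective ρ := by
    rw [Algebra.adjoin_range_eq_range_aeval, AlgHom.range_eq_top] at h2
    intro z
    obtain ⟨f, rfl⟩ := h2 z
    exact ⟨Ideal.Quotient.mk I f, rfl⟩
  rw [← h4]
  exact LinearMap.finrank_le_finrank_of_surjective (f := (ρ.comp φ.symm.toAlgHom).toLinearMap)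
    (hρ.comp φ.symm.surjective)

end Pool.Agent.Lib.MP_9e3d42_al
end

-- part Pool.Agent.Lib.MP_9e3d42_al.Main
section

/-! The Huneke-Wiegand condition for local domains with a telescopic reduction. -/

open Module TensorProduct Pointwise

namespace Pool.Agent.Lib.MP_9e3d42_al

variable {R : Type*} [CommRing R] [IsDomain R] [IsLocalRing R] [IsNoetherianRing R]
  {k : Type*} [Field k] {x : R}

lemma finrank_eq_of_isog [Ring.KrullDimLE 1 R] (hx : x ≠ 0) [Algebra k (R ⧸ Ideal.span {x})]
    [SMulCommClass R k (R ⧸ Ideal.span {x})] [Nontrivial (R ⧸ Ideal.span {x})]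
    [FiniteDimensional k (R ⧸ Ideal.span {x})]
    {X Y : Type*} [AddCommGroup X] [Module R X] [AddCommGroup Y] [Module R Y]
    [Module.Finite R X] [Module.Finite R Y] [IsTorsionFree R Y] [Module.Free R X]
    (h : Isog R X Y) :
    finrank k ((R ⧸ Ideal.span {x}) ⊗[R] Y) = finrank R X * finrank k (R ⧸ Ideal.span {x}) := by
  have : IsLocalRing (R ⧸ Ideal.span {x}) :=
    IsLocalRing.of_surjective' (Ideal.Quotient.mk _) Ideal.Quotient.mk_surjective
  have hX : FiniteDimensional k ((R ⧸ Ideal.span {x}) ⊗[R] X) :=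
    Module.Finite.trans (R ⧸ Ideal.span {x}) _
  have hY : FiniteDimensional k ((R ⧸ Ideal.span {x}) ⊗[R] Y) :=
    Module.Finite.trans (R ⧸ Ideal.span {x}) _
  have h1 := h.length_eq hx
  rw [(QuotSMulTop.equivQuotTensor x X).length_eq, (QuotSMulTop.equivQuotTensor x Y).length_eq,
    Module.length_eq_of_surjective (R := R ⧸ Ideal.span {x}) Ideal.Quotient.mk_surjective,
    Module.length_eq_of_surjective (R := R ⧸ Ideal.span {x}) Ideal.Quotient.mk_surjective] at h1
  have h2 := IsLocalRing.length_restrictScalars k (R ⧸ Ideal.span {x})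
    ((R ⧸ Ideal.span {x}) ⊗[R] X)
  have h3 := IsLocalRing.length_restrictScalars k (R ⧸ Ideal.span {x})
    ((R ⧸ Ideal.span {x}) ⊗[R] Y)
  rw [h1, ← h3, Module.length_eq_finrank, Module.length_eq_finrank, Nat.cast_inj] at h2
  rw [← h2, ← Module.finrank_mul_finrank k (R ⧸ Ideal.span {x}), Module.finrank_baseChange,
    mul_comm]

omit [IsLocalRing R] [IsNoetherianRing R] in
lemma dual_injective (hx : x ≠ 0) (M : Type*) [AddCommGroup M] [Module R M] :
    Function.Injective ((Module.Dual.baseChange (R ⧸ Ideal.span {x}) :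
      Module.Dual R M →ₗ[R] _).liftBaseChange (R ⧸ Ideal.span {x})) := by
  rw [injective_iff_map_eq_zero]
  intro t ht
  obtain ⟨f, rfl⟩ : ∃ f, t = 1 ⊗ₜ f := by
    obtain ⟨f, hf⟩ := TensorProduct.mk_surjective R (Module.Dual R M) (R ⧸ Ideal.span {x})
      Ideal.Quotient.mk_surjective t
    exact ⟨f, hf.symm⟩
  have h1 : ∀ v, f v ∈ LinearMap.range (LinearMap.toSpanSingleton R R x) := by
    intro v
    have := LinearMap.congr_fun ht (1 ⊗ₜ v)
    simp only [LinearMap.liftBaseChange_tmul, one_smul, Dual.baseChange_apply_tmul,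
      LinearMap.zero_apply] at this
    rw [← Algebra.algebraMap_eq_smul_one, Ideal.Quotient.algebraMap_eq,
      Ideal.Quotient.eq_zero_iff_mem, Ideal.mem_span_singleton'] at this
    exact this
  have h2 : Function.Injective (LinearMap.toSpanSingleton R R x) := by
    intro s t hst
    exact mul_right_cancel₀ hx hst
  let g : Module.Dual R M :=
    (LinearEquiv.ofInjective _ h2).symm.toLinearMap ∘ₗ LinearMap.codRestrict _ f h1
  have hg : f = x • g := by
    ext v
    have : LinearMap.toSpanSingleton R R x (g v) = f v := by simp [g]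
    rw [← this]
    simp [mul_comm]
  rw [hg, TensorProduct.tmul_smul, TensorProduct.smul_tmul', ← Algebra.algebraMap_eq_smul_one,
    Ideal.Quotient.algebraMap_eq,
    Ideal.Quotient.eq_zero_iff_mem.mpr (Ideal.mem_span_singleton_self x), TensorProduct.zero_tmul]

theorem free_of_teleAlg (hx : x ≠ 0) [Algebra k (R ⧸ Ideal.span {x})]
    [FiniteDimensional k (R ⧸ Ideal.span {x})] {c : ℕ} {a n : Fin c → ℕ} {m : Fin c → Fin c → ℕ}
    {γ : Fin c → k} {y : Fin c → R ⧸ Ideal.span {x}} (h : TeleAlg k a n m γ y)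
    (M : Type*) [AddCommGroup M] [Module R M] [Module.Finite R M] [IsTorsionFree R M]
    [IsTorsionFree R (M ⊗[R] Module.Dual R M)] : Module.Free R M := by
  have := h.nontrivial
  have : SMulCommClass R k (R ⧸ Ideal.span {x}) :=
    ⟨fun r κ z => by simp only [Algebra.smul_def]; ring⟩
  have hxm : x ∈ IsLocalRing.maximalIdeal R := by
    by_contra hcon
    have hu : IsUnit x := by simpa using hcon
    exact not_subsingleton (R ⧸ Ideal.span {x})
      (Ideal.Quotient.subsingleton_iff.mpr (Ideal.span_singleton_eq_top.mpr hu))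
  have hxj : x ∈ (⊥ : Ideal R).jacobson := IsLocalRing.maximalIdeal_le_jacobson _ hxm
  have : Ring.KrullDimLE 1 R := by
    have h1 : IsArtinianRing (R ⧸ Ideal.span {x}) := IsArtinianRing.of_finite k _
    rw [isArtinianRing_iff_krullDimLE_zero, Ring.krullDimLE_iff] at h1
    have h2 := ringKrullDim_le_ringKrullDim_quotient_add_encard ({x} : Set R) (by
      rw [Set.singleton_subset_iff, ← Ideal.jacobson_bot]; exact hxj)
    rw [Ring.krullDimLE_iff]
    refine h2.trans ?_
    rw [Set.encard_singleton]
    calc ringKrullDim (R ⧸ Ideal.span {x}) + ((1 : ℕ∞) : WithBot ℕ∞)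
        ≤ ((0 : ℕ) : WithBot ℕ∞) + ((1 : ℕ∞) : WithBot ℕ∞) := by gcongr
      _ = _ := by simp
  have hiso := exists_isog (R := R) M
  have d1 := finrank_eq_of_isog (k := k) hx hiso
  have d2 := finrank_eq_of_isog (k := k) hx hiso.dual
  have d3 := finrank_eq_of_isog (k := k) hx (hiso.tensor hiso.dual)
  rw [Module.finrank_tensorProduct (M := Fin (finrank R M) → R)] at d3
  rw [(Module.Free.chooseBasis R _).toDualEquiv.finrank_eq.symm] at d2 d3
  obtain ⟨τ, hτ⟩ := h.frobenius
  have hM : FiniteDimensional k ((R ⧸ Ideal.span {x}) ⊗[R] M) :=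
    Module.Finite.trans (R ⧸ Ideal.span {x}) _
  have hM' : FiniteDimensional k ((R ⧸ Ideal.span {x}) ⊗[R] Module.Dual R M) :=
    Module.Finite.trans (R ⧸ Ideal.span {x}) _
  have h1 := finrank_end_le τ hτ (d2.trans d1.symm) _ (dual_injective hx M)
  rw [← ((TensorProduct.AlgebraTensorModule.distribBaseChange R (R ⧸ Ideal.span {x}) M
    (Module.Dual R M)).restrictScalars k).finrank_eq, d3] at h1
  have h2 : Module.Free (R ⧸ Ideal.span {x}) ((R ⧸ Ideal.span {x}) ⊗[R] M) := by
    refine h.free ?_
    rw [d1]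
    calc _ ≤ _ := Nat.mul_le_mul_left _ h1
      _ = _ := by ring
  have : Module.FinitePresentation R M := Module.finitePresentation_of_finite R M
  refine (Module.free_quotSMulTop_iff_free R M hxj (smul_right_injective M hx)).mp ?_
  exact Module.Free.of_equiv ((QuotSMulTop.equivQuotTensor x M).extendScalarsOfSurjective
    Ideal.Quotient.mk_surjective).symm

theorem free_of_tele (hx : x ≠ 0) {c : ℕ} {a n : Fin c → ℕ} {m : Fin c → Fin c → ℕ}
    {γ : Fin c → k} (h : Tele a n m γ)
    (φ : (R ⧸ Ideal.span {x}) ≃+* (MvPolynomial (Fin c) k ⧸ Ideal.span (Set.range fun i =>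
      (MvPolynomial.X i ^ a i - MvPolynomial.C (γ i) * ∏ j, MvPolynomial.X j ^ m i j :
        MvPolynomial (Fin c) k))))
    (M : Type*) [AddCommGroup M] [Module R M] [Module.Finite R M] [IsTorsionFree R M]
    [IsTorsionFree R (M ⊗[R] Module.Dual R M)] : Module.Free R M := by
  let : Algebra k (R ⧸ Ideal.span {x}) :=
    (φ.symm.toRingHom.comp (algebraMap k _)).toAlgebra
  obtain ⟨y, hy, hfin⟩ := h.teleAlg (A := R ⧸ Ideal.span {x})
    { φ.symm with commutes' := fun _ => rfl }
  exact free_of_teleAlg hx hy M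

end Pool.Agent.Lib.MP_9e3d42_al
end
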